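import Mathlib

-- part MP_0811ac_an.Basic
section

/-!
Basic facts on Fourier coefficients on the circle, and the class `H` of bounded functions
with vanishing negative Fourier coefficients.
-/

set_option autoImplicit false

open MeasureTheory AddCircle Filter Topology
open scoped ENNReal NNReal ComplexConjugate

namespace Pool.Agent.MP_0811ac_an

abbrev Tc := UnitAddCircle

noncomputable abbrev mu : Measure Tc := haarAddCircle

/-- The Hardy class on the circle: bounded, no negative frequencies. -/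
def H (f : Tc → ℂ) : Prop := MemLp f ⊤ mu ∧ ∀ n : ℤ, n < 0 → fourierCoeff f n = 0

lemma norm_fourier (n : ℤ) (t : Tc) : ‖fourier n t‖ = 1 := by
  rw [fourier_apply, Circle.norm_coe]

lemma cf_def (f : Tc → ℂ) (n : ℤ) : fourierCoeff f n = ∫ t, fourier (-n) t * f t ∂mu := rfl

lemma cf_zero (f : Tc → ℂ) : fourierCoeff f 0 = ∫ t, f t ∂mu := by
  rw [cf_def]; simp

lemma memLp_of_cont {f : Tc → ℂ} (hf : Continuous f) (p : ℝ≥0∞) : MemLp f p mu := by
  obtain ⟨C, hC⟩ := (isCompact_range hf).isBounded.exists_norm_le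
  have : MemLp f ⊤ mu := memLp_top_of_bound hf.aestronglyMeasurable C
    (ae_of_all _ fun t => hC _ ⟨t, rfl⟩)
  exact this.mono_exponent le_top

lemma memLp_fourier (n : ℤ) (p : ℝ≥0∞) : MemLp (fun t : Tc => fourier n t) p mu :=
  memLp_of_cont (fourier n).continuous p

lemma exists_bound {f : Tc → ℂ} (hf : MemLp f ⊤ mu) : ∃ B : ℝ, 0 ≤ B ∧ ∀ᵐ t ∂mu, ‖f t‖ ≤ B := by
  refine ⟨(eLpNorm f ⊤ mu).toReal, ENNReal.toReal_nonneg, ?_⟩
  have h1 := ae_le_eLpNormEssSup (f := f) (μ := mu)
  filter_upwards [h1] with t ht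
  have h2 : eLpNormEssSup f mu ≠ ⊤ := by
    have := hf.2.ne
    rwa [eLpNorm_exponent_top] at this
  rw [eLpNorm_exponent_top]
  have := ENNReal.toReal_mono h2 ht
  simpa using this

lemma top_two {f : Tc → ℂ} (hf : MemLp f ⊤ mu) : MemLp f 2 mu := hf.mono_exponent le_top

lemma top_int {f : Tc → ℂ} (hf : MemLp f ⊤ mu) : Integrable f mu := hf.integrable le_top

lemma two_int {f : Tc → ℂ} (hf : MemLp f 2 mu) : Integrable f mu := hf.integrable (by norm_num)

lemma top_mul {f g : Tc → ℂ} (hf : MemLp f ⊤ mu) (hg : MemLp g ⊤ mu) :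
    MemLp (fun t => f t * g t) ⊤ mu := hg.mul' hf

lemma top_mul_two {f g : Tc → ℂ} (hf : MemLp f ⊤ mu) (hg : MemLp g 2 mu) :
    MemLp (fun t => f t * g t) 2 mu := hg.mul' hf

lemma two_mul_top {f g : Tc → ℂ} (hf : MemLp f 2 mu) (hg : MemLp g ⊤ mu) :
    MemLp (fun t => f t * g t) 2 mu := hg.mul' hf

lemma two_mul_two {f g : Tc → ℂ} (hf : MemLp f 2 mu) (hg : MemLp g 2 mu) :
    Integrable (fun t => f t * g t) mu := hf.integrable_mul hg

lemma memLp_conj {f : Tc → ℂ} {p : ℝ≥0∞} (hf : MemLp f p mu) :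
    MemLp (fun t => conj (f t)) p mu := hf.star

lemma cf_fourier_mul (f : Tc → ℂ) (m n : ℤ) :
    fourierCoeff (fun t => fourier m t * f t) n = fourierCoeff f (n - m) := by
  rw [cf_def, cf_def]
  congr 1; ext t
  rw [← mul_assoc, ← fourier_add]
  congr 3; ring

lemma cf_conj (f : Tc → ℂ) (n : ℤ) :
    fourierCoeff (fun t => conj (f t)) n = conj (fourierCoeff f (-n)) := by
  rw [cf_def, cf_def, ← integral_conj]
  congr 1; ext t
  rw [map_mul, neg_neg, fourier_neg]

lemma cf_add {f g : Tc → ℂ} (hf : Integrable f mu) (hg : Integrable g mu) (n : ℤ) :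
    fourierCoeff (fun t => f t + g t) n = fourierCoeff f n + fourierCoeff g n :=
  congrFun (fourierCoeff.add hf hg) n

lemma cf_const_mul (f : Tc → ℂ) (c : ℂ) (n : ℤ) :
    fourierCoeff (fun t => c * f t) n = c * fourierCoeff f n := fourierCoeff.const_mul f c n

lemma cf_sub {f g : Tc → ℂ} (hf : Integrable f mu) (hg : Integrable g mu) (n : ℤ) :
    fourierCoeff (fun t => f t - g t) n = fourierCoeff f n - fourierCoeff g n := by
  have h1 := cf_add hf (hg.const_mul (-1)) n
  rw [cf_const_mul] at h1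
  simp only [neg_mul, one_mul] at h1
  simpa [sub_eq_add_neg] using h1

lemma cf_fourier (m n : ℤ) :
    fourierCoeff (fun t : Tc => fourier m t) n = if n = m then 1 else 0 := by
  have := congrFun (fourierCoeff_fourier (T := 1) m) n
  rw [Pi.single_apply] at this
  exact this

lemma cf_const (c : ℂ) (n : ℤ) :
    fourierCoeff (fun _ : Tc => c) n = if n = 0 then c else 0 := by
  have h1 := cf_const_mul (fun t : Tc => fourier 0 t) c n
  rw [cf_fourier] at h1
  simpa using h1

lemma cf_congr {f g : Tc → ℂ} (h : f =ᵐ[mu] g) (n : ℤ) : fourierCoeff f n = fourierCoeff g n :=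
  congrFun (fourierCoeff_congr_ae h) n

/-- Parseval pairing. -/
lemma integral_mul_eq_zero {x y : Tc → ℂ} (hx : MemLp x 2 mu) (hy : MemLp y 2 mu)
    (h : ∀ m : ℤ, fourierCoeff x m = 0 ∨ fourierCoeff y (-m) = 0) :
    ∫ t, x t * y t ∂mu = 0 := by
  have hx' := memLp_conj hx
  have key := (fourierBasis (T := 1)).tsum_inner_mul_inner (hx'.toLp _) (hy.toLp _)
  have e1 : inner ℂ (hx'.toLp _) (hy.toLp _) = ∫ t, x t * y t ∂mu := by
    rw [L2.inner_def]
    apply integral_congr_ae
    filter_upwards [hx'.coeFn_toLp, hy.coeFn_toLp] with t h1 h2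
    rw [h1, h2]
    simp [mul_comm]
  rw [← e1, ← key]
  have e2 : ∀ i : ℤ, inner ℂ (fourierBasis (T := 1) i) (hy.toLp _) = fourierCoeff y i := by
    intro i
    rw [← HilbertBasis.repr_apply_apply, fourierBasis_repr]
    exact cf_congr hy.coeFn_toLp i
  have e3 : ∀ i : ℤ, inner ℂ (hx'.toLp _) (fourierBasis (T := 1) i) = fourierCoeff x (-i) := by
    intro i
    rw [← inner_conj_symm, ← HilbertBasis.repr_apply_apply, fourierBasis_repr,
      cf_congr hx'.coeFn_toLp i, cf_conj]
    simp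
  have : ∀ i : ℤ, inner ℂ (hx'.toLp _) (fourierBasis (T := 1) i) *
      inner ℂ (fourierBasis (T := 1) i) (hy.toLp _) = 0 := by
    intro i
    rw [e2, e3]
    rcases h (-i) with h1 | h1
    · rw [h1, zero_mul]
    · rw [neg_neg] at h1
      rw [h1, mul_zero]
  simp only [this, tsum_zero]

lemma cf_mul_eq_zero {x y : Tc → ℂ} (hx : MemLp x 2 mu) (hy : MemLp y 2 mu) (n : ℤ)
    (h : ∀ m : ℤ, fourierCoeff x m = 0 ∨ fourierCoeff y (n - m) = 0) :
    fourierCoeff (fun t => x t * y t) n = 0 := by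
  rw [cf_def]
  have := integral_mul_eq_zero (top_mul_two (memLp_fourier (-n) ⊤) hx) hy (by
    intro m
    rw [cf_fourier_mul]
    rcases h (m - -n) with h1 | h1
    · exact Or.inl h1
    · right
      rwa [show n - (m - -n) = -m by ring] at h1)
  rw [← this]
  congr 1; ext t; ring

lemma ae_zero_of_cf {x : Tc → ℂ} (hx : MemLp x 2 mu) (h : ∀ m : ℤ, fourierCoeff x m = 0) :
    x =ᵐ[mu] 0 := by
  have h1 := integral_mul_eq_zero hx (memLp_conj hx) (fun m => Or.inl (h m))
  have h2 : ∫ t, ‖x t‖ ^ 2 ∂mu = 0 := by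
    have : ∀ t, x t * conj (x t) = ((‖x t‖ ^ 2 : ℝ) : ℂ) := by
      intro t; rw [Complex.mul_conj']; push_cast; rfl
    simp only [this] at h1
    rw [integral_complex_ofReal] at h1
    exact_mod_cast h1
  have h3 : Integrable (fun t => ‖x t‖ ^ 2) mu := (memLp_two_iff_integrable_sq_norm hx.1).1 hx
  rw [integral_eq_zero_iff_of_nonneg (fun t => by positivity) h3] at h2
  filter_upwards [h2] with t ht
  simpa using ht

namespace H

lemma const (c : ℂ) : H (fun _ => c) :=
  ⟨memLp_top_const c, fun n hn => by rw [cf_const, if_neg hn.ne]⟩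

lemma fourier {m : ℤ} (hm : 0 ≤ m) : H (fun t => fourier m t) :=
  ⟨memLp_fourier m ⊤, fun n hn => by rw [cf_fourier, if_neg (by omega)]⟩

lemma add {f g : Tc → ℂ} (hf : H f) (hg : H g) : H (fun t => f t + g t) :=
  ⟨hf.1.add hg.1, fun n hn => by
    rw [cf_add (top_int hf.1) (top_int hg.1), hf.2 n hn, hg.2 n hn, add_zero]⟩

lemma sub {f g : Tc → ℂ} (hf : H f) (hg : H g) : H (fun t => f t - g t) :=
  ⟨hf.1.sub hg.1, fun n hn => by
    rw [cf_sub (top_int hf.1) (top_int hg.1), hf.2 n hn, hg.2 n hn, sub_zero]⟩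

lemma mul {f g : Tc → ℂ} (hf : H f) (hg : H g) : H (fun t => f t * g t) :=
  ⟨top_mul hf.1 hg.1, fun n hn => cf_mul_eq_zero (top_two hf.1) (top_two hg.1) n fun m => by
    by_cases hm : m < 0
    · exact Or.inl (hf.2 m hm)
    · exact Or.inr (hg.2 _ (by omega))⟩

lemma const_mul {f : Tc → ℂ} (c : ℂ) (hf : H f) : H (fun t => c * f t) := (const c).mul hf

lemma neg {f : Tc → ℂ} (hf : H f) : H (fun t => -f t) := by
  simpa using hf.const_mul (-1)

lemma pow {f : Tc → ℂ} (hf : H f) (k : ℕ) : H (fun t => f t ^ k) := by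
  induction k with
  | zero => simpa using const 1
  | succ k ih => simpa [pow_succ] using ih.mul hf

lemma sum {ι : Type*} (s : Finset ι) {f : ι → Tc → ℂ} (hf : ∀ i ∈ s, H (f i)) :
    H (fun t => ∑ i ∈ s, f i t) := by
  classical
  induction s using Finset.induction_on with
  | empty => simpa using const 0
  | insert a s ha ih =>
    simp only [Finset.sum_insert ha]
    exact (hf a (Finset.mem_insert_self _ _)).add
      (ih fun i hi => hf i (Finset.mem_insert_of_mem hi))

lemma congr {f g : Tc → ℂ} (hf : H f) (h : f =ᵐ[mu] g) : H g :=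
  ⟨hf.1.ae_eq h, fun n hn => by rw [← cf_congr h, hf.2 n hn]⟩

lemma of_tendsto {g : ℕ → Tc → ℂ} {f : Tc → ℂ} (hg : ∀ k, H (g k)) (B : ℝ)
    (hB : ∀ k, ∀ᵐ t ∂mu, ‖g k t‖ ≤ B)
    (hlim : ∀ᵐ t ∂mu, Tendsto (fun k => g k t) atTop (𝓝 (f t))) : H f := by
  have hm : AEStronglyMeasurable f mu :=
    aestronglyMeasurable_of_tendsto_ae atTop (fun k => (hg k).1.1) hlim
  have hb : ∀ᵐ t ∂mu, ‖f t‖ ≤ B := by
    filter_upwards [hlim, ae_all_iff.2 hB] with t h1 h2
    exact le_of_tendsto' h1.norm h2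
  refine ⟨memLp_top_of_bound hm B hb, fun n hn => ?_⟩
  have := tendsto_integral_of_dominated_convergence (μ := mu)
    (F := fun k t => _root_.fourier (-n) t * g k t) (f := fun t => _root_.fourier (-n) t * f t)
    (fun _ => B)
    (fun k => (memLp_fourier (-n) ⊤).1.mul (hg k).1.1) (integrable_const B)
    (fun k => by
      filter_upwards [hB k] with t ht
      rwa [norm_mul, norm_fourier, one_mul])
    (by
      filter_upwards [hlim] with t ht
      exact ht.const_mul _)
  have h0 : ∀ k, ∫ t, _root_.fourier (-n) t * g k t ∂mu = 0 := fun k => (hg k).2 n hn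
  simp only [h0] at this
  rw [cf_def]
  exact tendsto_nhds_unique this tendsto_const_nhds

/-- Holomorphic functional calculus on a disc. -/
lemma comp_ball {h : Tc → ℂ} (hh : H h) {c : ℂ} {r R : ℝ} (hr : r < R)
    (hb : ∀ᵐ t ∂mu, ‖h t - c‖ ≤ r) {Φ : ℂ → ℂ} (hΦ : DifferentiableOn ℂ Φ (Metric.ball c R)) :
    H (fun t => Φ (h t)) := by
  have hr0 : 0 ≤ r := by
    obtain ⟨t, ht⟩ := hb.exists
    exact (norm_nonneg _).trans ht
  obtain ⟨R', h1, h2⟩ := exists_between hr
  lift r to ℝ≥0 using hr0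
  lift R' to ℝ≥0 using (r.2.trans h1.le)
  have h1' : r < R' := by exact_mod_cast h1
  have hp := (hΦ.mono (Metric.closedBall_subset_ball h2)).hasFPowerSeriesOnBall
    (lt_of_le_of_lt (zero_le) h1')
  set p := cauchyPowerSeries Φ c R' with hpdef
  have hrad : (r : ℝ≥0∞) < p.radius := lt_of_lt_of_le (by exact_mod_cast h1') hp.r_le
  have hs := p.summable_norm_mul_pow hrad
  refine of_tendsto (g := fun k t => ∑ i ∈ Finset.range k, p.coeff i * (h t - c) ^ i)
    (fun k => sum _ fun i _ => ((hh.sub (const c)).pow i).const_mul _)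
    (∑' i, ‖p i‖ * (r : ℝ) ^ i) (fun k => ?_) ?_
  · filter_upwards [hb] with t ht
    refine (norm_sum_le _ _).trans (le_trans ?_ (hs.sum_le_tsum (Finset.range k)
      (fun i _ => by positivity)))
    refine Finset.sum_le_sum fun i _ => ?_
    rw [norm_mul, norm_pow, FormalMultilinearSeries.norm_apply_eq_norm_coef]
    gcongr
  · filter_upwards [hb] with t ht
    have hmem : h t - c ∈ Metric.eball (0 : ℂ) (R' : ℝ≥0∞) := by
      rw [Metric.eball_coe, mem_ball_zero_iff]
      exact lt_of_le_of_lt ht h1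
    have := (hp.hasSum hmem).tendsto_sum_nat
    simp only [FormalMultilinearSeries.apply_eq_pow_smul_coeff, smul_eq_mul, add_sub_cancel]
      at this
    simpa only [mul_comm] using this

/-- Holomorphic functional calculus for entire functions. -/
lemma comp_entire {h : Tc → ℂ} (hh : H h) {Φ : ℂ → ℂ} (hΦ : Differentiable ℂ Φ) :
    H (fun t => Φ (h t)) := by
  obtain ⟨B, -, hB⟩ := exists_bound hh.1
  exact hh.comp_ball (c := 0) (r := B) (R := B + 1) (by linarith) (by simpa using hB)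
    hΦ.differentiableOn

/-- Holomorphic functional calculus on the right half plane. -/
lemma comp_half {h : Tc → ℂ} (hh : H h) {η : ℝ} (hη : 0 < η)
    (hb : ∀ᵐ t ∂mu, η ≤ (h t).re) {Φ : ℂ → ℂ} (hΦ : DifferentiableOn ℂ Φ {z | 0 < z.re}) :
    H (fun t => Φ (h t)) := by
  obtain ⟨B, hB0, hB⟩ := exists_bound hh.1
  set R : ℝ := B ^ 2 / η + η with hR
  have hRpos : 0 < R := by positivity
  have hRη : B ^ 2 + η ^ 2 = R * η := by rw [hR]; field_simp
  have hlt : R ^ 2 - η ^ 2 < R ^ 2 := by nlinarith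
  have hge : 0 ≤ R ^ 2 - η ^ 2 := by
    have : η ≤ R := by rw [hR]; have : 0 ≤ B ^ 2 / η := by positivity
                       linarith
    nlinarith
  refine hh.comp_ball (c := (R : ℂ)) (r := √(R ^ 2 - η ^ 2)) (R := R) ?_ ?_ (hΦ.mono ?_)
  · exact Real.sqrt_lt' hRpos |>.2 hlt
  · filter_upwards [hb, hB] with t h1 h2
    apply Real.le_sqrt_of_sq_le
    have h3 : ‖h t‖ ^ 2 ≤ B ^ 2 := by gcongr
    rw [Complex.sq_norm, Complex.normSq_apply] at h3 ⊢
    simp only [Complex.sub_re, Complex.ofReal_re, Complex.sub_im, Complex.ofReal_im, sub_zero]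
    nlinarith
  · intro z hz
    rw [Metric.mem_ball, dist_eq_norm] at hz
    have := (Complex.abs_re_le_norm (z - R)).trans_lt hz
    simp only [Complex.sub_re, Complex.ofReal_re] at this
    have := (abs_lt.1 this).1
    show 0 < z.re
    linarith

end H

end Pool.Agent.MP_0811ac_an

end

-- part MP_0811ac_an.Kernel
section

/-!
The Cauchy kernel, the reproducing bound, and two duality lemmas.
-/

set_option autoImplicit false

open MeasureTheory AddCircle Filter Topology
open scoped ENNReal NNReal ComplexConjugate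

namespace Pool.Agent.MP_0811ac_an

/-- The analytic Cauchy kernel. -/
noncomputable def ka (a : ℂ) (t : Tc) : ℂ := (1 - a * fourier 1 t)⁻¹

/-- The anti-analytic Cauchy kernel; pairing with it evaluates the analytic part at `w`. -/
noncomputable def kb (w : ℂ) (t : Tc) : ℂ := (1 - w * fourier (-1) t)⁻¹

lemma re_one_sub (w : ℂ) (n : ℤ) (t : Tc) : 1 - ‖w‖ ≤ (1 - w * fourier n t).re := by
  have h1 := Complex.abs_re_le_norm (w * fourier n t)
  rw [norm_mul, norm_fourier, mul_one] at h1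
  have := (abs_le.1 h1).2
  simp only [Complex.sub_re, Complex.one_re]
  linarith

lemma one_sub_ne {w : ℂ} (hw : ‖w‖ < 1) (n : ℤ) (t : Tc) : 1 - w * fourier n t ≠ 0 := by
  intro h
  have := re_one_sub w n t
  rw [h] at this
  simp at this
  linarith

lemma cont_one_sub (w : ℂ) (n : ℤ) : Continuous fun t : Tc => 1 - w * fourier n t :=
  continuous_const.sub (continuous_const.mul (fourier n).continuous)

lemma cont_ka {a : ℂ} (ha : ‖a‖ < 1) : Continuous (ka a) :=
  (cont_one_sub a 1).inv₀ (one_sub_ne ha 1)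

lemma cont_kb {w : ℂ} (hw : ‖w‖ < 1) : Continuous (kb w) :=
  (cont_one_sub w (-1)).inv₀ (one_sub_ne hw (-1))

lemma kb_eq_conj (w : ℂ) (t : Tc) : kb w t = conj (ka (conj w) t) := by
  simp only [kb, ka, map_inv₀, map_sub, map_one, map_mul, Complex.conj_conj, fourier_neg]

lemma H_one_sub (a : ℂ) : H fun t => 1 - a * fourier 1 t :=
  (H.const 1).sub ((H.fourier zero_le_one).const_mul a)

lemma H_ka {a : ℂ} (ha : ‖a‖ < 1) : H (ka a) := by
  refine (H_one_sub a).comp_half (η := 1 - ‖a‖) (by linarith)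
    (ae_of_all _ fun t => re_one_sub a 1 t) (Φ := fun z => z⁻¹) ?_
  refine differentiableOn_id.inv fun z hz h0 => ?_
  have h0' : z = 0 := h0
  rw [h0'] at hz
  simp at hz

lemma ka_rec {a : ℂ} (ha : ‖a‖ < 1) (t : Tc) : ka a t = 1 + a * (fourier 1 t * ka a t) := by
  have := one_sub_ne ha 1 t
  unfold ka
  field_simp
  ring

lemma cf_ka_rec {a : ℂ} (ha : ‖a‖ < 1) (n : ℤ) :
    fourierCoeff (ka a) n = (if n = 0 then 1 else 0) + a * fourierCoeff (ka a) (n - 1) := by
  have h1 : ka a = fun t => 1 + a * (fourier 1 t * ka a t) := funext (ka_rec ha)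
  conv_lhs => rw [h1]
  rw [cf_add (integrable_const _)
    ((top_int (top_mul (memLp_fourier 1 ⊤) (H_ka ha).1)).const_mul a), cf_const, cf_const_mul,
    cf_fourier_mul]

lemma cf_ka {a : ℂ} (ha : ‖a‖ < 1) (n : ℕ) : fourierCoeff (ka a) n = a ^ n := by
  induction n with
  | zero => rw [cf_ka_rec ha, (H_ka ha).2 _ (by norm_num)]; simp
  | succ n ih =>
    rw [cf_ka_rec ha, if_neg (by omega), show ((n + 1 : ℕ) : ℤ) - 1 = n by push_cast; ring, ih]
    ring

lemma memLp_kb {w : ℂ} (hw : ‖w‖ < 1) (p : ℝ≥0∞) : MemLp (kb w) p mu :=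
  memLp_of_cont (cont_kb hw) p

lemma cf_kb_pos {w : ℂ} (hw : ‖w‖ < 1) {n : ℤ} (hn : 0 < n) : fourierCoeff (kb w) n = 0 := by
  have h1 : kb w = fun t => conj (ka (conj w) t) := funext (kb_eq_conj w)
  rw [h1, cf_conj, (H_ka (by simpa using hw)).2 _ (by omega), map_zero]

/-- A square integrable function with only negative frequencies pairs to zero with `kb`. -/
lemma integral_mul_kb_eq_zero {w : ℂ} (hw : ‖w‖ < 1) {x : Tc → ℂ} (hx : MemLp x 2 mu)
    (h : ∀ n : ℤ, 0 ≤ n → fourierCoeff x n = 0) : ∫ t, x t * kb w t ∂mu = 0 := by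
  refine integral_mul_eq_zero hx (memLp_kb hw 2) fun m => ?_
  by_cases hm : 0 ≤ m
  · exact Or.inl (h m hm)
  · exact Or.inr (cf_kb_pos hw (by omega))

lemma poisson_eq {w : ℂ} (hw : ‖w‖ < 1) (t : Tc) :
    kb w t + (ka (conj w) t - 1) = ((‖kb w t + (ka (conj w) t - 1)‖ : ℝ) : ℂ) := by
  have hw' : ‖conj w‖ < 1 := by simpa using hw
  rw [kb_eq_conj]
  set u := ka (conj w) t with hu
  have hre : 1 / 2 ≤ u.re := by
    have h1 : (1 - conj w * fourier 1 t) * u = 1 := by
      rw [hu, ka]; exact mul_inv_cancel₀ (one_sub_ne hw' 1 t)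
    have h2 : u - 1 = conj w * fourier 1 t * u := by linear_combination h1
    have h3 : ‖u - 1‖ ≤ ‖u‖ := by
      rw [h2, norm_mul, norm_mul, norm_fourier, mul_one]
      exact mul_le_of_le_one_left (norm_nonneg _) hw'.le
    have h4 : ‖u - 1‖ ^ 2 ≤ ‖u‖ ^ 2 := by gcongr
    rw [Complex.sq_norm, Complex.sq_norm, Complex.normSq_apply, Complex.normSq_apply] at h4
    simp only [Complex.sub_re, Complex.one_re, Complex.sub_im, Complex.one_im, sub_zero] at h4
    nlinarith
  have h5 : conj u + (u - 1) = ((2 * u.re - 1 : ℝ) : ℂ) := by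
    apply Complex.ext <;> simp
    ring
  rw [h5, Complex.norm_real, Real.norm_of_nonneg (by linarith)]

/-- The reproducing bound. -/
lemma norm_integral_mul_kb_le {w : ℂ} (hw : ‖w‖ < 1) {h : Tc → ℂ} (hh : H h) {B : ℝ}
    (hB : ∀ᵐ t ∂mu, ‖h t‖ ≤ B) : ‖∫ t, h t * kb w t ∂mu‖ ≤ B := by
  have hw' : ‖conj w‖ < 1 := by simpa using hw
  have hk : MemLp (fun t => ka (conj w) t - 1) ⊤ mu := (H_ka hw').1.sub (memLp_top_const 1)
  have hk0 : ∀ n : ℤ, n ≤ 0 → fourierCoeff (fun t => ka (conj w) t - 1) n = 0 := by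
    intro n hn
    rw [cf_sub (top_int (H_ka hw').1) (integrable_const _), cf_const]
    rcases hn.eq_or_lt with h0 | h0
    · have := cf_ka hw' 0
      rw [h0, if_pos rfl]
      simpa [sub_eq_zero] using this
    · rw [(H_ka hw').2 n h0, if_neg h0.ne, sub_zero]
  have h1 : ∫ t, h t * (ka (conj w) t - 1) ∂mu = 0 := by
    refine integral_mul_eq_zero (top_two hh.1) (top_two hk) fun m => ?_
    by_cases hm : m < 0
    · exact Or.inl (hh.2 m hm)
    · exact Or.inr (hk0 _ (by omega))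
  have hP : MemLp (fun t => kb w t + (ka (conj w) t - 1)) ⊤ mu := (memLp_kb hw ⊤).add hk
  have h2 : ∫ t, h t * kb w t ∂mu = ∫ t, h t * (kb w t + (ka (conj w) t - 1)) ∂mu := by
    simp only [mul_add]
    rw [integral_add (top_int (top_mul hh.1 (memLp_kb hw ⊤))) (top_int (top_mul hh.1 hk)), h1,
      add_zero]
  have h3 : ∫ t, ‖kb w t + (ka (conj w) t - 1)‖ ∂mu = 1 := by
    have e1 : ∫ t, (kb w t + (ka (conj w) t - 1)) ∂mu = 1 := by
      rw [integral_add (top_int (memLp_kb hw ⊤)) (top_int hk), ← cf_zero, ← cf_zero,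
        hk0 0 le_rfl, add_zero]
      have h1 : kb w = fun t => conj (ka (conj w) t) := funext (kb_eq_conj w)
      have := cf_ka hw' 0
      rw [h1, cf_conj]
      simp only [CharP.cast_eq_zero, pow_zero] at this
      rw [neg_zero, this, map_one]
    have e2 : ∫ t, (kb w t + (ka (conj w) t - 1)) ∂mu =
        ((∫ t, ‖kb w t + (ka (conj w) t - 1)‖ ∂mu : ℝ) : ℂ) := by
      rw [← integral_complex_ofReal]
      exact integral_congr_ae (ae_of_all _ fun t => poisson_eq hw t)
    rw [e2] at e1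
    exact_mod_cast e1
  rw [h2]
  calc ‖∫ t, h t * (kb w t + (ka (conj w) t - 1)) ∂mu‖
      ≤ ∫ t, B * ‖kb w t + (ka (conj w) t - 1)‖ ∂mu := by
        refine norm_integral_le_of_norm_le ((top_int hP).norm.const_mul B) ?_
        filter_upwards [hB] with t ht
        rw [norm_mul]
        gcongr
    _ = B := by rw [integral_const_mul, h3, mul_one]

/-- Integration against a square integrable function, as a continuous map on `L²`. -/
lemma continuous_pair {y : Tc → ℂ} (hy : MemLp y 2 mu) :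
    Continuous fun q : Lp ℂ 2 mu => ∫ t, y t * q t ∂mu := by
  have hy' := memLp_conj hy
  have : (fun q : Lp ℂ 2 mu => ∫ t, y t * q t ∂mu) = fun q => inner ℂ (hy'.toLp _) q := by
    ext q
    rw [L2.inner_def]
    apply integral_congr_ae
    filter_upwards [hy'.coeFn_toLp] with t h1
    rw [h1]
    simp [mul_comm]
  rw [this]
  fun_prop

lemma continuous_wnorm {G : Tc → ℝ} (hG : MemLp G 2 mu) :
    Continuous fun q : Lp ℂ 2 mu => ∫ t, G t * ‖q t‖ ∂mu := by
  have hL : LipschitzWith 1 (fun z : ℂ => ‖z‖) := lipschitzWith_one_norm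
  have : (fun q : Lp ℂ 2 mu => ∫ t, G t * ‖q t‖ ∂mu) =
      fun q => inner ℝ (hG.toLp _) (hL.compLp norm_zero q) := by
    ext q
    rw [L2.inner_def]
    apply integral_congr_ae
    filter_upwards [hG.coeFn_toLp, hL.coeFn_compLp norm_zero q] with t h1 h2
    rw [h1, h2]
    simp [mul_comm]
  rw [this]
  exact continuous_const.inner (hL.continuous_compLp norm_zero)

lemma ae_le_of_L2 {y : Tc → ℂ} {G : Tc → ℝ} (hy : MemLp y 2 mu) (hG : MemLp G 2 mu)
    (hG0 : ∀ t, 0 ≤ G t)
    (h : ∀ q : Lp ℂ 2 mu, ‖∫ t, y t * q t ∂mu‖ ≤ ∫ t, G t * ‖q t‖ ∂mu) :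
    ∀ᵐ t ∂mu, ‖y t‖ ≤ G t := by
  have hGi : Integrable G mu := hG.integrable (by norm_num)
  refine ae_le_of_forall_setIntegral_le (two_int hy).norm hGi fun s hs _ => ?_
  have hm : AEStronglyMeasurable (fun t => conj (y t) / (‖y t‖ : ℂ)) mu :=
    ((memLp_conj hy).1.aemeasurable.div
      (Complex.continuous_ofReal.measurable.comp_aemeasurable hy.1.norm.aemeasurable)).aestronglyMeasurable
  have hb : ∀ t, ‖conj (y t) / (‖y t‖ : ℂ)‖ ≤ 1 := by
    intro t
    rw [norm_div, Complex.norm_conj, Complex.norm_real, norm_norm]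
    exact div_self_le_one _
  have hq : MemLp (s.indicator fun t => conj (y t) / (‖y t‖ : ℂ)) 2 mu :=
    (top_two (memLp_top_of_bound hm 1 (ae_of_all _ hb))).indicator hs
  have h1 := h (hq.toLp _)
  have e1 : ∫ t, y t * (hq.toLp _) t ∂mu = ((∫ t in s, ‖y t‖ ∂mu : ℝ) : ℂ) := by
    rw [← integral_indicator hs, ← integral_complex_ofReal]
    apply integral_congr_ae
    filter_upwards [hq.coeFn_toLp] with t ht
    rw [ht]
    by_cases hts : t ∈ s
    · simp only [Set.indicator_of_mem hts]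
      by_cases hy0 : y t = 0
      · simp [hy0]
      · have : (‖y t‖ : ℂ) ≠ 0 := by simpa using hy0
        rw [← mul_div_assoc, Complex.mul_conj']
        field_simp
    · simp [Set.indicator_of_notMem hts]
  have e2 : ∫ t, G t * ‖(hq.toLp _) t‖ ∂mu ≤ ∫ t in s, G t ∂mu := by
    rw [← integral_indicator hs]
    refine integral_mono_ae (hG.integrable_mul (Lp.memLp (hq.toLp _)).norm)
      (hGi.indicator hs) ?_
    filter_upwards [hq.coeFn_toLp] with t ht
    rw [ht]
    by_cases hts : t ∈ s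
    · simp only [Set.indicator_of_mem hts]
      exact mul_le_of_le_one_right (hG0 t) (hb t)
    · simp [Set.indicator_of_notMem hts]
  rw [e1, Complex.norm_real] at h1
  exact (le_abs_self _).trans (h1.trans e2)

/-- A pointwise bound from testing against trigonometric polynomials. -/
lemma ae_le_of_span {y : Tc → ℂ} {G : Tc → ℝ} (hy : MemLp y 2 mu) (hG : MemLp G 2 mu)
    (hG0 : ∀ t, 0 ≤ G t)
    (h : ∀ q ∈ Submodule.span ℂ (Set.range (@fourier 1)),
      ‖∫ t, y t * q t ∂mu‖ ≤ ∫ t, G t * ‖q t‖ ∂mu) :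
    ∀ᵐ t ∂mu, ‖y t‖ ≤ G t := by
  refine ae_le_of_L2 hy hG hG0 fun q => ?_
  have hcl : IsClosed {q : Lp ℂ 2 mu | ‖∫ t, y t * q t ∂mu‖ ≤ ∫ t, G t * ‖q t‖ ∂mu} :=
    isClosed_le (continuous_pair hy).norm (continuous_wnorm hG)
  have hd := (ContinuousMap.toLp_denseRange ℂ mu ℂ (p := 2) (by simp)).topologicalClosure_map_submodule
      (span_fourier_closure_eq_top (T := 1))
  have hq : q ∈ closure (((Submodule.span ℂ (Set.range (@fourier 1))).map
      (ContinuousMap.toLp (E := ℂ) 2 mu ℂ).toLinearMap : Submodule ℂ (Lp ℂ 2 mu)) :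
        Set (Lp ℂ 2 mu)) := by
    rw [← Submodule.topologicalClosure_coe, hd]
    trivial
  refine closure_minimal ?_ hcl hq
  rintro _ ⟨p, hp, rfl⟩
  have hae := ContinuousMap.coeFn_toLp (p := 2) (𝕜 := ℂ) mu p
  have e1 : ∫ t, y t * (ContinuousMap.toLp (E := ℂ) 2 mu ℂ p) t ∂mu = ∫ t, y t * p t ∂mu := by
    apply integral_congr_ae
    filter_upwards [hae] with t ht
    rw [ht]
  have e2 : ∫ t, G t * ‖(ContinuousMap.toLp (E := ℂ) 2 mu ℂ p) t‖ ∂mu =
      ∫ t, G t * ‖p t‖ ∂mu := by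
    apply integral_congr_ae
    filter_upwards [hae] with t ht
    rw [ht]
  show ‖∫ t, y t * (ContinuousMap.toLp (E := ℂ) 2 mu ℂ p) t ∂mu‖ ≤
    ∫ t, G t * ‖(ContinuousMap.toLp (E := ℂ) 2 mu ℂ p) t‖ ∂mu
  rw [e1, e2]
  exact h p hp

end Pool.Agent.MP_0811ac_an

end

-- part MP_0811ac_an.Proj
section

/-!
The Riesz projection, boundedness from bounded Cauchy integrals, uniform boundedness on the
Hardy class, and the duality step.
-/

set_option autoImplicit false

open MeasureTheory AddCircle Filter Topology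
open scoped ENNReal NNReal ComplexConjugate

namespace Pool.Agent.MP_0811ac_an

lemma inner_fourierLp (n : ℤ) (v : Lp ℂ 2 mu) :
    inner ℂ (fourierLp (T := 1) 2 n) v = fourierCoeff v n := by
  rw [← fourierBasis_repr, HilbertBasis.repr_apply_apply, coe_fourierBasis]

lemma exists_proj {x : Tc → ℂ} (hx : MemLp x 2 mu) :
    ∃ y : Tc → ℂ, MemLp y 2 mu ∧ (∀ n : ℤ, n < 0 → fourierCoeff y n = 0) ∧
      ∀ n : ℤ, 0 ≤ n → fourierCoeff y n = fourierCoeff x n := by
  let K : Submodule ℂ (Lp ℂ 2 mu) :=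
    { carrier := {v | ∀ n : ℤ, n < 0 → inner ℂ (fourierLp (T := 1) 2 n) v = 0}
      add_mem' := fun {a b} ha hb n hn => by rw [inner_add_right, ha n hn, hb n hn, add_zero]
      zero_mem' := fun n _ => inner_zero_right _
      smul_mem' := fun c a ha n hn => by rw [inner_smul_right, ha n hn, mul_zero] }
  have hK : IsClosed (K : Set (Lp ℂ 2 mu)) := by
    have : (K : Set (Lp ℂ 2 mu)) =
        ⋂ n : ℤ, ⋂ _ : n < 0, {v | inner ℂ (fourierLp (T := 1) 2 n) v = 0} := by
      ext v; simp [K]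
    rw [this]
    exact isClosed_iInter fun n => isClosed_iInter fun _ =>
      isClosed_eq (continuous_const.inner continuous_id) continuous_const
  have : CompleteSpace K := hK.completeSpace_coe
  obtain ⟨w, hwK, hw⟩ := Submodule.HasOrthogonalProjection.exists_orthogonal (K := K) (hx.toLp _)
  refine ⟨w, Lp.memLp w, fun n hn => ?_, fun n hn => ?_⟩
  · rw [← inner_fourierLp]; exact hwK n hn
  · have he : fourierLp (T := 1) 2 n ∈ K := fun m hm =>
      (orthonormal_fourier (T := 1)).2 (by omega : m ≠ n)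
    have := Submodule.inner_right_of_mem_orthogonal he hw
    rw [inner_sub_right, inner_fourierLp, inner_fourierLp, cf_congr hx.coeFn_toLp] at this
    exact (sub_eq_zero.1 this).symm

lemma norm_rmul {r : ℝ} (hr0 : 0 ≤ r) (hr : r < 1) (n : ℤ) (t : Tc) :
    ‖(r : ℂ) * fourier n t‖ < 1 := by
  rwa [norm_mul, norm_fourier, mul_one, Complex.norm_real, Real.norm_of_nonneg hr0]

/-- The Abel mean of the analytic part. -/
noncomputable def abel (x : Tc → ℂ) (r : ℝ) (s : Tc) : ℂ :=
  ∫ t, x t * kb ((r : ℂ) * fourier 1 s) t ∂mu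

lemma abel_aux {x : Tc → ℂ} (hx : Integrable x mu) {r : ℝ} (hr0 : 0 ≤ r) (hr : r < 1)
    (q : C(Tc, ℂ)) :
    Integrable (Function.uncurry fun s t : Tc => q s * (x t * kb ((r : ℂ) * fourier 1 s) t))
      (mu.prod mu) := by
  have hc : Continuous fun p : Tc × Tc => q p.1 * kb ((r : ℂ) * fourier 1 p.1) p.2 := by
    refine (q.continuous.comp continuous_fst).mul (Continuous.inv₀ ?_ fun p =>
      one_sub_ne (norm_rmul hr0 hr 1 p.1) (-1) p.2)
    exact continuous_const.sub ((continuous_const.mul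
      ((fourier 1).continuous.comp continuous_fst)).mul
      ((fourier (-1)).continuous.comp continuous_snd))
  obtain ⟨C, hC⟩ := (isCompact_range hc).isBounded.exists_norm_le
  have := (hx.comp_snd mu).bdd_mul (c := C) hc.aestronglyMeasurable
    (ae_of_all _ fun p => hC _ ⟨p, rfl⟩)
  refine this.congr (ae_of_all _ fun p => ?_)
  simp only [Function.uncurry]
  ring

lemma abel_int {x : Tc → ℂ} (hx : Integrable x mu) {r : ℝ} (hr0 : 0 ≤ r) (hr : r < 1)
    (q : C(Tc, ℂ)) : Integrable (fun s => abel x r s * q s) mu := by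
  refine (abel_aux hx hr0 hr q).integral_prod_left.congr (ae_of_all _ fun s => ?_)
  simp only [Function.uncurry, abel]
  rw [integral_const_mul, mul_comm]

lemma abel_cf {x : Tc → ℂ} (hx : Integrable x mu) {r : ℝ} (hr0 : 0 ≤ r) (hr : r < 1) (m : ℤ) :
    ∫ s, abel x r s * fourier (-m) s ∂mu =
      if 0 ≤ m then (r : ℂ) ^ m.toNat * fourierCoeff x m else 0 := by
  have h1 : ∫ s, abel x r s * fourier (-m) s ∂mu =
      ∫ s, ∫ t, fourier (-m) s * (x t * kb ((r : ℂ) * fourier 1 s) t) ∂mu ∂mu := by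
    congr 1; ext s
    rw [integral_const_mul, mul_comm]; rfl
  rw [h1, integral_integral_swap (abel_aux hx hr0 hr (fourier (-m)))]
  have h2 : ∀ t, ∫ s, fourier (-m) s * (x t * kb ((r : ℂ) * fourier 1 s) t) ∂mu =
      x t * fourierCoeff (ka ((r : ℂ) * fourier (-1) t)) m := by
    intro t
    rw [cf_def, ← integral_const_mul]
    congr 1; ext s
    simp only [kb, ka]
    rw [mul_left_comm, mul_right_comm (r : ℂ)]
  simp only [h2]
  split_ifs with hm
  · lift m to ℕ using hm
    have h3 : ∀ t : Tc, fourierCoeff (ka ((r : ℂ) * fourier (-1) t)) (m : ℤ) =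
        (r : ℂ) ^ m * fourier (-(m : ℤ)) t := by
      intro t
      rw [cf_ka (norm_rmul hr0 hr (-1) t), mul_pow]
      congr 1
      clear h1 h2
      induction m with
      | zero => simp
      | succ m ih => rw [pow_succ, ih, ← fourier_add]; congr 2; push_cast; ring
    simp only [h3, Int.toNat_natCast]
    rw [cf_def, ← integral_const_mul]
    congr 1; ext t; ring
  · have h3 : ∀ t : Tc, fourierCoeff (ka ((r : ℂ) * fourier (-1) t)) m = 0 := fun t =>
      (H_ka (norm_rmul hr0 hr (-1) t)).2 m (by omega)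
    simp only [h3, mul_zero, integral_zero]

/-- If all Cauchy integrals of `x` are bounded by `C` then the analytic part of `x` is
bounded by `C`. -/
lemma exists_H_of_bound {x : Tc → ℂ} (hx : MemLp x 2 mu) {C : ℝ}
    (hC : ∀ w : ℂ, ‖w‖ < 1 → ‖∫ t, x t * kb w t ∂mu‖ ≤ C) :
    ∃ y : Tc → ℂ, H y ∧ (∀ᵐ t ∂mu, ‖y t‖ ≤ C) ∧
      ∀ n : ℤ, 0 ≤ n → fourierCoeff y n = fourierCoeff x n := by
  obtain ⟨y, hy, hy1, hy2⟩ := exists_proj hx
  have hC0 : 0 ≤ C := (norm_nonneg _).trans (hC 0 (by simp))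
  let rr : ℕ → ℝ := fun k => 1 - 1 / ((k : ℝ) + 1)
  have hr0 : ∀ k, 0 ≤ rr k := fun k => by
    have : 1 / ((k : ℝ) + 1) ≤ 1 := by
      rw [div_le_one (by positivity)]; linarith [Nat.cast_nonneg (α := ℝ) k]
    simp only [rr]; linarith
  have hr1 : ∀ k, rr k < 1 := fun k => by
    have : 0 < 1 / ((k : ℝ) + 1) := by positivity
    simp only [rr]; linarith
  have hrl : Tendsto rr atTop (𝓝 1) := by
    have := (tendsto_const_nhds (x := (1 : ℝ))).sub
      (tendsto_one_div_add_atTop_nhds_zero_nat (𝕜 := ℝ))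
    rwa [sub_zero] at this
  have hlim : ∀ q ∈ Submodule.span ℂ (Set.range (@fourier 1)),
      Tendsto (fun k => ∫ s, abel x (rr k) s * q s ∂mu) atTop (𝓝 (∫ s, y s * q s ∂mu)) := by
    intro q hq
    induction hq using Submodule.span_induction with
    | mem q hq =>
      obtain ⟨n, rfl⟩ := hq
      obtain ⟨m, rfl⟩ : ∃ m, n = -m := ⟨-n, by ring⟩
      simp only [abel_cf (two_int hx) (hr0 _) (hr1 _)]
      have e : ∫ s, y s * fourier (-m) s ∂mu = fourierCoeff y m := by
        rw [cf_def]; congr 1; ext s; ring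
      rw [e]
      split_ifs with hm
      · rw [hy2 m hm]
        have h1 : Tendsto (fun k => ((rr k : ℝ) : ℂ)) atTop (𝓝 1) := by
          exact_mod_cast (Complex.continuous_ofReal.tendsto 1).comp hrl
        simpa using (h1.pow m.toNat).mul_const (fourierCoeff x m)
      · rw [hy1 m (by omega)]; exact tendsto_const_nhds
    | zero => simp
    | add p q _ _ hp hq =>
      simp only [ContinuousMap.add_apply, mul_add]
      rw [integral_add (two_mul_two hy (memLp_of_cont p.continuous 2))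
        (two_mul_two hy (memLp_of_cont q.continuous 2))]
      refine (hp.add hq).congr fun k => ?_
      rw [integral_add (abel_int (two_int hx) (hr0 k) (hr1 k) p)
        (abel_int (two_int hx) (hr0 k) (hr1 k) q)]
    | smul c p _ hp =>
      simp only [ContinuousMap.smul_apply, smul_eq_mul, mul_left_comm _ c, integral_const_mul]
      exact hp.const_mul c
  have hb : ∀ᵐ t ∂mu, ‖y t‖ ≤ C := by
    refine ae_le_of_span hy (memLp_const C) (fun _ => hC0) fun q hq => ?_
    refine le_of_tendsto' (hlim q hq).norm fun k => ?_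
    refine norm_integral_le_of_norm_le
      ((top_int (memLp_of_cont q.continuous ⊤)).norm.const_mul C) (ae_of_all _ fun s => ?_)
    rw [norm_mul]
    gcongr
    exact hC _ (norm_rmul (hr0 k) (hr1 k) 1 s)
  exact ⟨y, ⟨memLp_top_of_bound hy.1 C hb, hy1⟩, hb, hy2⟩

lemma ae_le_norm (g : Lp ℂ ⊤ mu) : ∀ᵐ t ∂mu, ‖g t‖ ≤ ‖g‖ := by
  have h1 := ae_le_eLpNormEssSup (f := g) (μ := mu)
  filter_upwards [h1] with t ht
  have h2 : eLpNormEssSup g mu ≠ ⊤ := by
    have := (Lp.memLp g).2.ne
    rwa [eLpNorm_exponent_top] at this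
  rw [Lp.norm_def, eLpNorm_exponent_top]
  have := ENNReal.toReal_mono h2 ht
  simpa using this

/-- Integration against an integrable function as a functional on `L∞`. -/
noncomputable def pairCLM {ψ : Tc → ℂ} (hψ : Integrable ψ mu) : Lp ℂ ⊤ mu →L[ℂ] ℂ :=
  LinearMap.mkContinuous
    { toFun := fun g => ∫ t, g t * ψ t ∂mu
      map_add' := fun a b => by
        have ha : Integrable (fun t => a t * ψ t) mu := hψ.mul_of_top_right (Lp.memLp a)
        have hb : Integrable (fun t => b t * ψ t) mu := hψ.mul_of_top_right (Lp.memLp b)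
        rw [← integral_add ha hb]
        apply integral_congr_ae
        filter_upwards [Lp.coeFn_add a b] with t ht
        rw [ht]; simp [add_mul]
      map_smul' := fun c a => by
        rw [RingHom.id_apply, smul_eq_mul, ← integral_const_mul]
        apply integral_congr_ae
        filter_upwards [Lp.coeFn_smul c a] with t ht
        rw [ht]; simp [mul_assoc] }
    (∫ t, ‖ψ t‖ ∂mu) (fun g => by
      rw [mul_comm, ← integral_const_mul]
      refine norm_integral_le_of_norm_le (hψ.norm.const_mul _) ?_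
      filter_upwards [ae_le_norm g] with t ht
      rw [norm_mul]
      gcongr)

lemma pairCLM_apply {ψ : Tc → ℂ} (hψ : Integrable ψ mu) (g : Lp ℂ ⊤ mu) :
    pairCLM hψ g = ∫ t, g t * ψ t ∂mu := rfl

/-- Uniform boundedness on the Hardy class. -/
lemma uniform_bound {ι : Type*} {ψ : ι → Tc → ℂ} (hψ : ∀ i, Integrable (ψ i) mu)
    (h : ∀ g, H g → ∃ C, ∀ i, ‖∫ t, g t * ψ i t ∂mu‖ ≤ C) :
    ∃ M : ℝ, 0 ≤ M ∧ ∀ g B, H g → (∀ᵐ t ∂mu, ‖g t‖ ≤ B) →
      ∀ i, ‖∫ t, g t * ψ i t ∂mu‖ ≤ M * B := by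
  let e : ℤ → Lp ℂ ⊤ mu →L[ℂ] ℂ := fun n => pairCLM (top_int (memLp_fourier (-n) ⊤))
  have he : ∀ n g, e n g = fourierCoeff g n := by
    intro n g
    rw [cf_def]
    simp only [e, pairCLM_apply, mul_comm]
  let K : Submodule ℂ (Lp ℂ ⊤ mu) :=
    { carrier := {v | ∀ n : ℤ, n < 0 → e n v = 0}
      add_mem' := fun {a b} ha hb n hn => by rw [map_add, ha n hn, hb n hn, add_zero]
      zero_mem' := fun n _ => map_zero _
      smul_mem' := fun c a ha n hn => by rw [map_smul, ha n hn, smul_zero] }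
  have hK : IsClosed (K : Set (Lp ℂ ⊤ mu)) := by
    have : (K : Set (Lp ℂ ⊤ mu)) = ⋂ n : ℤ, ⋂ _ : n < 0, {v | e n v = 0} := by
      ext v; simp [K]
    rw [this]
    exact isClosed_iInter fun n => isClosed_iInter fun _ =>
      isClosed_eq (e n).continuous continuous_const
  have : CompleteSpace K := hK.completeSpace_coe
  obtain ⟨M, hM⟩ := banach_steinhaus (g := fun i => (pairCLM (hψ i)).comp K.subtypeL) (by
    intro g
    obtain ⟨C, hC⟩ := h g.1 ⟨Lp.memLp _, fun n hn => by rw [← he]; exact g.2 n hn⟩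
    exact ⟨C, fun i => hC i⟩)
  refine ⟨max M 0, le_max_right _ _, fun g B hg hB i => ?_⟩
  have hB0 : 0 ≤ B := by
    obtain ⟨t, ht⟩ := hB.exists
    exact (norm_nonneg _).trans ht
  have hgK : hg.1.toLp _ ∈ K := fun n hn => by
    rw [he, cf_congr hg.1.coeFn_toLp, hg.2 n hn]
  have h1 := ((pairCLM (hψ i)).comp K.subtypeL).le_opNorm ⟨_, hgK⟩
  have h2 : ‖hg.1.toLp _‖ ≤ B := by
    have := Lp.norm_le_of_ae_bound (f := hg.1.toLp _) hB0 (by
      filter_upwards [hg.1.coeFn_toLp, hB] with t h1 h2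
      rwa [h1])
    simpa [measureUnivNNReal] using this
  have h3 : ((pairCLM (hψ i)).comp K.subtypeL) ⟨_, hgK⟩ = ∫ t, g t * ψ i t ∂mu := by
    show pairCLM (hψ i) (hg.1.toLp _) = _
    rw [pairCLM_apply]
    apply integral_congr_ae
    filter_upwards [hg.1.coeFn_toLp] with t ht
    rw [ht]
  rw [h3] at h1
  refine h1.trans (mul_le_mul ((hM i).trans (le_max_left _ _)) h2 (norm_nonneg _)
    (le_max_right _ _))

end Pool.Agent.MP_0811ac_an

end

-- part MP_0811ac_an.Dual
section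

/-!
The duality step, and analytic polynomials with prescribed real part.
-/

set_option autoImplicit false

open MeasureTheory AddCircle Filter Topology
open scoped ENNReal NNReal ComplexConjugate Pointwise

namespace Pool.Agent.MP_0811ac_an

/-- The `L¹` norm as a seminorm on `L²`. -/
noncomputable def N1 : Seminorm ℂ (Lp ℂ 2 mu) :=
  Seminorm.of (fun e => ∫ t, ‖e t‖ ∂mu)
    (fun a b => by
      rw [← integral_add (two_int (Lp.memLp a)).norm (two_int (Lp.memLp b)).norm]
      refine integral_mono_ae (two_int (Lp.memLp _)).norm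
        ((two_int (Lp.memLp a)).norm.add (two_int (Lp.memLp b)).norm) ?_
      filter_upwards [Lp.coeFn_add a b] with t ht
      rw [ht]
      exact norm_add_le _ _)
    (fun c a => by
      rw [← integral_const_mul]
      apply integral_congr_ae
      filter_upwards [Lp.coeFn_smul c a] with t ht
      rw [ht]
      simp)

lemma N1_apply (e : Lp ℂ 2 mu) : N1 e = ∫ t, ‖e t‖ ∂mu := rfl

lemma continuous_N1 : Continuous N1 := by
  have := continuous_wnorm (G := fun _ => 1) (memLp_const 1)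
  simp only [one_mul] at this
  exact this

lemma exists_approx {X : Tc → ℂ} (hX : MemLp X 2 mu) {M : ℝ} (hM0 : 0 ≤ M)
    (hM : ∀ g B, H g → (∀ᵐ t ∂mu, ‖g t‖ ≤ B) → ‖∫ t, X t * g t ∂mu‖ ≤ M * B) :
    ∃ φ : C(Tc, ℂ), (∀ n : ℤ, n ≤ 0 → fourierCoeff φ n = 0) ∧
      ∫ t, ‖X t - φ t‖ ∂mu ≤ M + 1 := by
  by_contra hcon
  push Not at hcon
  let V : Submodule ℂ C(Tc, ℂ) :=
    { carrier := {φ | ∀ n : ℤ, n ≤ 0 → fourierCoeff φ n = 0}
      add_mem' := fun {a b} ha hb n hn => by
        have := cf_add (top_int (memLp_of_cont a.continuous ⊤))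
          (top_int (memLp_of_cont b.continuous ⊤)) n
        rw [ha n hn, hb n hn, add_zero] at this
        exact this
      zero_mem' := fun n _ => by
        have := cf_const 0 n
        rw [ite_self] at this
        exact this
      smul_mem' := fun c a ha n hn => by
        have := cf_const_mul a c n
        rw [ha n hn, mul_zero] at this
        exact this }
  let V' : Submodule ℂ (Lp ℂ 2 mu) := V.map (ContinuousMap.toLp (E := ℂ) 2 mu ℂ).toLinearMap
  let K : Set (Lp ℂ 2 mu) := (V' : Set (Lp ℂ 2 mu)) + N1.ball 0 (M + 1)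
  have hKc : Convex ℝ K := (V'.restrictScalars ℝ).convex.add (N1.convex_ball _ _)
  have hKo : IsOpen K := by
    refine IsOpen.add_left ?_
    rw [Seminorm.ball_zero_eq]
    exact isOpen_lt continuous_N1 continuous_const
  have hXK : hX.toLp _ ∉ K := by
    rintro ⟨_, ⟨φ, hφ, rfl⟩, e, he, hsum⟩
    rw [Seminorm.mem_ball_zero, N1_apply] at he
    have h1 := hcon φ hφ
    have h2 : ∫ t, ‖X t - φ t‖ ∂mu = ∫ t, ‖e t‖ ∂mu := by
      apply integral_congr_ae
      have hae := ContinuousMap.coeFn_toLp (p := 2) (𝕜 := ℂ) mu φ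
      have h3 := Lp.coeFn_add (ContinuousMap.toLp (E := ℂ) 2 mu ℂ φ) e
      have hsum' : ContinuousMap.toLp (E := ℂ) 2 mu ℂ φ + e = hX.toLp _ := hsum
      rw [hsum'] at h3
      filter_upwards [hae, h3, hX.coeFn_toLp] with t h4 h5 h6
      rw [h6, Pi.add_apply, h4] at h5
      rw [h5, add_sub_cancel_left]
    linarith
  obtain ⟨f, hf⟩ := RCLike.geometric_hahn_banach_open_point (𝕜 := ℂ) hKc hKo hXK
  set A : ℝ := RCLike.re (f (hX.toLp _)) with hA
  have hz : (0 : Lp ℂ 2 mu) ∈ N1.ball 0 (M + 1) := by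
    rw [Seminorm.mem_ball_zero, map_zero]; linarith
  have hA0 : 0 < A := by
    have := hf 0 ⟨0, V'.zero_mem, 0, hz, add_zero _⟩
    simpa using this
  have hV : ∀ v ∈ V', f v = 0 := by
    intro v hv
    by_contra h0
    have := hf (((A : ℂ) / f v) • v) ⟨_, V'.smul_mem _ hv, 0, hz, add_zero _⟩
    rw [map_smul, smul_eq_mul, div_mul_cancel₀ _ h0] at this
    simp at this
  have hN : ∀ e, ‖f e‖ ≤ A / (M + 1) * N1 e := by
    intro e
    by_contra hlt
    push Not at hlt
    have hpos : 0 < ‖f e‖ := lt_of_le_of_lt (by positivity) hlt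
    have h0 : f e ≠ 0 := norm_pos_iff.1 hpos
    have hmem : ((A : ℂ) / f e) • e ∈ N1.ball 0 (M + 1) := by
      rw [Seminorm.mem_ball_zero, map_smul_eq_mul, norm_div, Complex.norm_real,
        Real.norm_of_nonneg hA0.le, div_mul_eq_mul_div, div_lt_iff₀ hpos]
      rw [div_mul_eq_mul_div, div_lt_iff₀ (by linarith)] at hlt
      linarith
    have := hf _ ⟨0, V'.zero_mem, _, hmem, zero_add _⟩
    rw [map_smul, smul_eq_mul, div_mul_cancel₀ _ h0] at this
    simp at this
  let g' : Lp ℂ 2 mu := (InnerProductSpace.toDual ℂ (Lp ℂ 2 mu)).symm f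
  have hfg : ∀ e : Lp ℂ 2 mu, f e = ∫ t, conj (g' t) * e t ∂mu := by
    intro e
    rw [← InnerProductSpace.toDual_symm_apply, L2.inner_def]
    simp [g', mul_comm]
  have hg2 : MemLp (fun t => conj (g' t)) 2 mu := memLp_conj (Lp.memLp g')
  have hgb : ∀ᵐ t ∂mu, ‖conj (g' t)‖ ≤ A / (M + 1) := by
    refine ae_le_of_L2 hg2 (memLp_const _) (fun _ => by positivity) fun q => ?_
    rw [← hfg, integral_const_mul]
    exact hN q
  have hgH : H fun t => conj (g' t) := by
    refine ⟨memLp_top_of_bound hg2.1 _ hgb, fun n hn => ?_⟩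
    have hmem : fourier (-n) ∈ V := fun m hm => by
      have := cf_fourier (-n) m
      rwa [if_neg (by omega)] at this
    have := hV _ ⟨_, hmem, rfl⟩
    rw [hfg] at this
    rw [cf_def, ← this]
    apply integral_congr_ae
    filter_upwards [coeFn_fourierLp (T := 1) 2 (-n)] with t ht
    rw [mul_comm]
    congr 1
    exact ht.symm
  have h1 := hM _ _ hgH hgb
  have h2 : f (hX.toLp _) = ∫ t, X t * conj (g' t) ∂mu := by
    rw [hfg]
    apply integral_congr_ae
    filter_upwards [hX.coeFn_toLp] with t ht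
    rw [ht, mul_comm]
  have h3 : A ≤ ‖f (hX.toLp _)‖ := RCLike.re_le_norm _
  rw [h2] at h3
  have h4 : M * (A / (M + 1)) < A := by
    rw [mul_div_assoc', div_lt_iff₀ (by linarith)]
    nlinarith
  linarith

/-- The real part of a trigonometric polynomial is a constant plus the real part of an analytic
function with zero mean. -/
lemma exists_re_eq {p : C(Tc, ℂ)} (hp : p ∈ Submodule.span ℂ (Set.range (@fourier 1))) (a : ℂ) :
    ∃ (r : ℝ) (q : Tc → ℂ), H q ∧ fourierCoeff q 0 = 0 ∧ ∀ t, (a * p t).re = r + (q t).re := by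
  induction hp using Submodule.span_induction generalizing a with
  | mem p hp =>
    obtain ⟨n, rfl⟩ := hp
    rcases lt_trichotomy n 0 with h | h | h
    · refine ⟨0, fun t => conj a * fourier (-n) t, (H.fourier (by omega)).const_mul _, ?_, ?_⟩
      · rw [cf_const_mul, cf_fourier, if_neg (by omega), mul_zero]
      · intro t
        beta_reduce
        rw [fourier_neg, ← map_mul, Complex.conj_re, zero_add]
    · subst h
      exact ⟨a.re, fun _ => 0, H.const 0, by simp [cf_const], fun t => by simp⟩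
    · refine ⟨0, fun t => a * fourier n t, (H.fourier h.le).const_mul _, ?_, fun t => by simp⟩
      rw [cf_const_mul, cf_fourier, if_neg (by omega), mul_zero]
  | zero => exact ⟨0, fun _ => 0, H.const 0, by simp [cf_const], fun t => by simp⟩
  | add p q _ _ hp hq =>
    obtain ⟨r1, q1, h1, h1', h1''⟩ := hp a
    obtain ⟨r2, q2, h2, h2', h2''⟩ := hq a
    refine ⟨r1 + r2, fun t => q1 t + q2 t, h1.add h2, ?_, fun t => ?_⟩
    · rw [cf_add (top_int h1.1) (top_int h2.1), h1', h2', add_zero]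
    · rw [ContinuousMap.add_apply, mul_add, Complex.add_re, h1'', h2'', Complex.add_re]
      ring
  | smul c p _ hp =>
    obtain ⟨r, q, h1, h2, h3⟩ := hp (a * c)
    refine ⟨r, q, h1, h2, fun t => ?_⟩
    rw [← h3, ContinuousMap.smul_apply, smul_eq_mul, mul_assoc]

/-- A bounded analytic function whose real part majorises a given continuous function, with
control of the `L²` norm. -/
lemma exists_majorant {b : Tc → ℝ} (hb : Continuous b) (hb0 : ∀ t, 0 ≤ b t) :
    ∃ c : Tc → ℂ, H c ∧ (∀ t, b t + 1 ≤ (c t).re) ∧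
      ∫ t, ‖c t‖ ^ 2 ∂mu ≤ 4 * ∫ t, b t ^ 2 ∂mu + 36 := by
  let B : C(Tc, ℂ) := ⟨fun t => ((b t + 2 : ℝ) : ℂ), by fun_prop⟩
  have hB : B ∈ closure ((Submodule.span ℂ (Set.range (@fourier 1)) : Submodule ℂ C(Tc, ℂ)) :
      Set C(Tc, ℂ)) := by
    rw [← Submodule.topologicalClosure_coe, span_fourier_closure_eq_top]
    trivial
  obtain ⟨p, hp, hpB⟩ := Metric.mem_closure_iff.1 hB 1 one_pos
  obtain ⟨r, q, hq, hq0, hre⟩ := exists_re_eq hp 1
  have hcl : ∀ t, |b t + 2 - (r + (q t).re)| ≤ 1 := by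
    intro t
    have h1 := (ContinuousMap.dist_apply_le_dist (f := B) (g := p) t).trans hpB.le
    rw [dist_eq_norm] at h1
    have h2 := (Complex.abs_re_le_norm _).trans h1
    rw [← hre t, one_mul]
    simpa [B] using h2
  have hc : H fun t => (r : ℂ) + q t := (H.const _).add hq
  refine ⟨fun t => (r : ℂ) + q t, hc, fun t => ?_, ?_⟩
  · have := (abs_le.1 (hcl t)).2
    simp only [Complex.add_re, Complex.ofReal_re]
    linarith
  · have h1 : ∫ t, q t * (q t + 2 * r) ∂mu = 0 := by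
      refine integral_mul_eq_zero (top_two hq.1) (top_two (hq.add (H.const _)).1) fun m => ?_
      rcases lt_trichotomy m 0 with h | h | h
      · exact Or.inl (hq.2 m h)
      · exact Or.inl (h ▸ hq0)
      · exact Or.inr ((hq.add (H.const _)).2 _ (by omega))
    have hi : Integrable (fun t => q t * (q t + 2 * r)) mu :=
      top_int (top_mul hq.1 (hq.add (H.const _)).1)
    have h2 : ∫ t, (q t * (q t + 2 * r)).re ∂mu = 0 := by
      have := integral_re (𝕜 := ℂ) hi
      rw [h1] at this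
      simpa using this
    have hb2 : Integrable (fun t => b t ^ 2) mu := by
      obtain ⟨C, hC⟩ := (isCompact_range (hb.pow 2)).isBounded.exists_norm_le
      exact Integrable.of_bound (hb.pow 2).aestronglyMeasurable C
        (ae_of_all _ fun t => hC _ ⟨t, rfl⟩)
    have h3 : ∫ t, ‖(r : ℂ) + q t‖ ^ 2 ∂mu ≤
        ∫ t, (4 * b t ^ 2 + 36 - (q t * (q t + 2 * r)).re) ∂mu := by
      refine integral_mono ((memLp_two_iff_integrable_sq_norm hc.1.1).1 (top_two hc.1))
        (((hb2.const_mul 4).add (integrable_const _)).sub hi.re) fun t => ?_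
      have h4 := abs_le.1 (hcl t)
      have h5 := hb0 t
      simp only
      rw [Complex.sq_norm, Complex.normSq_apply]
      simp only [Complex.add_re, Complex.ofReal_re, Complex.add_im, Complex.ofReal_im,
        Complex.mul_re, Complex.mul_im, Complex.re_ofNat, Complex.im_ofNat]
      have h6 : (r + (q t).re) ^ 2 ≤ (b t + 3) ^ 2 := by
        apply sq_le_sq' <;> linarith
      nlinarith [sq_nonneg (b t - 3), sq_nonneg r]
    have i1 : Integrable (fun t => 4 * b t ^ 2 + 36) mu :=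
      (hb2.const_mul 4).add (integrable_const _)
    have i2 : Integrable (fun t => (q t * (q t + 2 * r)).re) mu := hi.re
    rw [integral_sub i1 i2, h2,
      integral_add (hb2.const_mul 4) (integrable_const _), integral_const_mul] at h3
    simpa using h3

end Pool.Agent.MP_0811ac_an

end

-- part MP_0811ac_an.Trunc
section

/-!
The truncation step: a symbol whose Toeplitz operator acts on the Hardy class is, for every
point `w` of the disc, close in the weighted `L¹` norm to an analytic function of almost the same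
sup norm.
-/

set_option autoImplicit false

open MeasureTheory AddCircle Filter Topology
open scoped ENNReal NNReal ComplexConjugate Real

namespace Pool.Agent.MP_0811ac_an

lemma chi_re {ε : ℝ} (hε : 0 < ε) {t : ℂ} (ht : 0 ≤ t.re) :
    t.re - 7 * ε ≤ (t ^ 4 * ((ε + t)⁻¹) ^ 3).re ∧
      ‖t ^ 4 * ((ε + t)⁻¹) ^ 3‖ ≤ ‖t‖ ^ 4 / ε ^ 3 := by
  set D := ‖(ε : ℂ) + t‖ with hD
  have hD2 : D ^ 2 = (ε + t.re) ^ 2 + t.im ^ 2 := by
    rw [hD, Complex.sq_norm, Complex.normSq_apply]; simp; ring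
  have ht2 : ‖t‖ ^ 2 = t.re ^ 2 + t.im ^ 2 := by
    rw [Complex.sq_norm, Complex.normSq_apply]; ring
  have hD0 : 0 ≤ D := norm_nonneg _
  have h1 : ε ≤ D := by
    apply le_of_sq_le_sq _ hD0
    nlinarith [sq_nonneg t.im]
  have h2 : ‖t‖ ≤ D := by
    apply le_of_sq_le_sq _ hD0
    nlinarith
  have hDpos : 0 < D := hε.trans_le h1
  have hne : (ε : ℂ) + t ≠ 0 := norm_pos_iff.1 hDpos
  constructor
  · have e : t ^ 4 * ((ε + t)⁻¹) ^ 3 =
        t - t * (ε ^ 3 + 3 * ε ^ 2 * t + 3 * ε * t ^ 2) * ((ε + t)⁻¹) ^ 3 := by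
      field_simp; ring
    have hb : ‖t * (ε ^ 3 + 3 * ε ^ 2 * t + 3 * ε * t ^ 2) * ((ε + t)⁻¹) ^ 3‖ ≤ 7 * ε := by
      rw [norm_mul, norm_mul, norm_pow, norm_inv, ← hD, inv_pow, ← div_eq_mul_inv,
        div_le_iff₀ (by positivity)]
      have h3 : ‖(ε : ℂ) ^ 3 + 3 * ε ^ 2 * t + 3 * ε * t ^ 2‖ ≤
          ε ^ 3 + 3 * ε ^ 2 * ‖t‖ + 3 * ε * ‖t‖ ^ 2 := by
        refine norm_add₃_le.trans (le_of_eq ?_)
        simp [abs_of_pos hε]
      have h4 : ε ^ 3 + 3 * ε ^ 2 * ‖t‖ + 3 * ε * ‖t‖ ^ 2 ≤ 7 * ε * D ^ 2 := by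
        have a1 : ε ^ 2 ≤ D ^ 2 := by gcongr
        have a2 : ε * ‖t‖ ≤ D ^ 2 := by rw [sq]; gcongr
        have a3 : ‖t‖ ^ 2 ≤ D ^ 2 := by gcongr
        nlinarith
      calc ‖t‖ * ‖(ε : ℂ) ^ 3 + 3 * ε ^ 2 * t + 3 * ε * t ^ 2‖ ≤ D * (7 * ε * D ^ 2) := by
            gcongr
            exact h3.trans h4
        _ = 7 * ε * D ^ 3 := by ring
    rw [e, Complex.sub_re]
    have := (abs_le.1 ((Complex.abs_re_le_norm _).trans hb)).2
    linarith
  · rw [norm_mul, norm_pow, norm_pow, norm_inv, ← hD, inv_pow, ← div_eq_mul_inv]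
    gcongr

lemma norm_exp_neg_sub_one {z : ℂ} {A : ℝ} (h : -A ≤ z.re) :
    ‖Complex.exp (-z) - 1‖ ≤ (Real.exp A + 2) * ‖z‖ := by
  have hA := Real.exp_pos A
  by_cases h1 : ‖z‖ ≤ 1
  · have := Complex.norm_exp_sub_one_le (x := -z) (by simpa using h1)
    rw [norm_neg] at this
    nlinarith [norm_nonneg z]
  · push Not at h1
    have h2 : ‖Complex.exp (-z)‖ ≤ Real.exp A := by
      rw [Complex.norm_exp]
      apply Real.exp_le_exp.2
      simp only [Complex.neg_re]; linarith
    have h3 := norm_sub_le (Complex.exp (-z)) 1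
    rw [norm_one] at h3
    nlinarith

lemma c0_pos : 0 < Real.cos (3 * π / 8) :=
  Real.cos_pos_of_mem_Ioo ⟨by linarith [Real.pi_pos], by linarith [Real.pi_pos]⟩

lemma sector {u c : ℂ} (hu : 0 < u.re) (hc : 0 < c.re) :
    Real.cos (3 * π / 8) * ‖Complex.exp (1 / 4 * Complex.log u + 1 / 2 * Complex.log c)‖ ≤
      (Complex.exp (1 / 4 * Complex.log u + 1 / 2 * Complex.log c)).re ∧
    ‖Complex.exp (1 / 4 * Complex.log u + 1 / 2 * Complex.log c)‖ ^ 4 = ‖u‖ * ‖c‖ ^ 2 := by
  have hu0 : u ≠ 0 := fun h => by simp [h] at hu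
  have hc0 : c ≠ 0 := fun h => by simp [h] at hc
  constructor
  · rw [Complex.norm_exp, Complex.exp_re, mul_comm]
    gcongr
    have h1 := abs_lt.1 (Complex.abs_arg_lt_pi_div_two_iff.2 (Or.inl hu))
    have h2 := abs_lt.1 (Complex.abs_arg_lt_pi_div_two_iff.2 (Or.inl hc))
    have e : (1 / 4 * Complex.log u + 1 / 2 * Complex.log c).im = u.arg / 4 + c.arg / 2 := by
      simp [Complex.log_im]; ring
    rw [e, ← Real.cos_abs (u.arg / 4 + c.arg / 2)]
    apply Real.cos_le_cos_of_nonneg_of_le_pi (abs_nonneg _) (by linarith [Real.pi_pos])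
    rw [abs_le]
    constructor <;> linarith
  · rw [← norm_pow, ← Complex.exp_nat_mul, ← norm_pow, ← norm_mul]
    congr 1
    have e : ((4 : ℕ) : ℂ) * (1 / 4 * Complex.log u + 1 / 2 * Complex.log c) =
        Complex.log u + (2 : ℕ) * Complex.log c := by push_cast; ring
    rw [e, Complex.exp_add, Complex.exp_nat_mul, Complex.exp_log hu0, Complex.exp_log hc0]

lemma one_add_le_exp {x : ℝ} (hx : 0 ≤ x) : 1 + x ^ 4 / 24 ≤ Real.exp x := by
  have := Real.sum_le_exp_of_nonneg hx 5
  simp only [Finset.sum_range_succ, Finset.range_zero, Finset.sum_empty, Nat.factorial] at this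
  norm_num at this
  nlinarith [pow_nonneg hx 2, pow_nonneg hx 3]

lemma diffOn_log : DifferentiableOn ℂ Complex.log {z | 0 < z.re} := fun _ hz =>
  (Complex.differentiableAt_log (Or.inl hz)).differentiableWithinAt

lemma diffOn_inv : DifferentiableOn ℂ (fun z : ℂ => z⁻¹) {z | 0 < z.re} := by
  refine differentiableOn_id.inv fun z hz h0 => ?_
  have h0' : z = 0 := h0
  rw [h0'] at hz
  simp at hz

theorem exists_trunc {f : Tc → ℂ} (hf : MemLp f ⊤ mu) {M : ℝ} (hM0 : 0 ≤ M)
    (hM : ∀ w : ℂ, ‖w‖ < 1 → ∀ g B, H g → (∀ᵐ t ∂mu, ‖g t‖ ≤ B) →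
      ‖∫ t, f t * g t * kb w t ∂mu‖ ≤ M * B)
    {ρ ρ' : ℝ} (hρ : 0 < ρ) (hρ' : ρ < ρ') (hb : ∀ᵐ t ∂mu, ‖f t‖ ≤ ρ) :
    ∃ C : ℝ, ∀ w : ℂ, ‖w‖ < 1 → ∃ F, H F ∧ (∀ᵐ t ∂mu, ‖F t‖ ≤ ρ') ∧
      ∫ t, ‖f t - F t‖ * ‖kb w t‖ ∂mu ≤ C := by
  set c0 := Real.cos (3 * π / 8) with hc0
  have hc0p : 0 < c0 := c0_pos
  set E := ρ' / ρ with hE
  have hE1 : 1 < E := by rw [hE, one_lt_div hρ]; exact hρ'
  set ε := Real.log E / 7 with hε
  have hεp : 0 < ε := by have := Real.log_pos hE1; positivity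
  have hexp : Real.exp (7 * ε) = E := by
    rw [hε, mul_div_cancel₀ _ (by norm_num), Real.exp_log (by linarith)]
  set K0 := 24 / c0 ^ 4 with hK0
  have hK0p : 0 < K0 := by positivity
  refine ⟨E * (M + 1) + ρ * (E + 2) / ε ^ 3 * (4 * (K0 / ρ * (M + 1)) + 36), fun w hw => ?_⟩
  have hw' : ‖conj w‖ < 1 := by simpa using hw
  obtain ⟨φ, hφ, hφ1⟩ := exists_approx (top_two (top_mul hf (memLp_kb hw ⊤))) hM0
    (fun g B hg hB => by
      have := hM w hw g B hg hB
      simpa only [mul_right_comm] using this)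
  let F0 : Tc → ℂ := fun t => φ t - w * (fourier (-1) t * φ t)
  have hF0c : Continuous F0 :=
    φ.continuous.sub (continuous_const.mul ((fourier (-1)).continuous.mul φ.continuous))
  have hF0H : H F0 := by
    refine ⟨memLp_of_cont hF0c ⊤, fun n hn => ?_⟩
    have i1 : Integrable (fun t => φ t) mu := top_int (memLp_of_cont φ.continuous ⊤)
    have i2 : Integrable (fun t => w * (fourier (-1) t * φ t)) mu :=
      (top_int (top_mul (memLp_fourier (-1) ⊤) (memLp_of_cont φ.continuous ⊤))).const_mul w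
    rw [cf_sub i1 i2, cf_const_mul, cf_fourier_mul, hφ n hn.le, hφ _ (by omega)]
    simp
  have hkey : ∀ t, ‖f t * kb w t - φ t‖ = ‖f t - F0 t‖ * ‖kb w t‖ := by
    intro t
    rw [← norm_mul]
    congr 1
    have := one_sub_ne hw (-1) t
    simp only [F0, kb]
    field_simp
  simp only [hkey] at hφ1
  let u : Tc → ℂ := fun t => 1 - conj w * fourier 1 t
  have huk : ∀ t, ‖u t‖ * ‖kb w t‖ = 1 := by
    intro t
    rw [kb_eq_conj, Complex.norm_conj, ← norm_mul, ka, mul_inv_cancel₀ (one_sub_ne hw' 1 t),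
      norm_one]
  have hure : ∀ t, 1 - ‖conj w‖ ≤ (u t).re := fun t => re_one_sub _ 1 t
  let m : Tc → ℝ := fun t => max (‖F0 t‖ / ρ - 1) 0
  have hm0 : ∀ t, 0 ≤ m t := fun t => le_max_right _ _
  have hmc : Continuous m := ((hF0c.norm.div_const ρ).sub continuous_const).max continuous_const
  let b : Tc → ℝ := fun t => √(K0 * m t * ‖kb w t‖)
  have hbc : Continuous b := ((continuous_const.mul hmc).mul (cont_kb hw).norm).sqrt
  have hb2 : ∀ t, b t ^ 2 = K0 * m t * ‖kb w t‖ := fun t =>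
    Real.sq_sqrt (mul_nonneg (mul_nonneg hK0p.le (hm0 t)) (norm_nonneg _))
  have hb0 : ∀ t, 0 ≤ b t := fun t => Real.sqrt_nonneg _
  obtain ⟨c, hcH, hcre, hcint⟩ := exists_majorant hbc hb0
  have hI : Integrable (fun t => ‖f t - F0 t‖ * ‖kb w t‖) mu := by
    have := (top_int (top_mul (hf.sub hF0H.1) (memLp_kb hw ⊤))).norm
    simpa only [norm_mul, Pi.sub_apply] using this
  have hbint : ∫ t, b t ^ 2 ∂mu ≤ K0 / ρ * (M + 1) := by
    calc ∫ t, b t ^ 2 ∂mu ≤ ∫ t, K0 / ρ * (‖f t - F0 t‖ * ‖kb w t‖) ∂mu := by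
          refine integral_mono_of_nonneg (ae_of_all _ fun t => sq_nonneg _) (hI.const_mul _) ?_
          filter_upwards [hb] with t ht
          rw [hb2]
          have h1 : m t ≤ ‖f t - F0 t‖ / ρ := by
            refine max_le ?_ (by positivity)
            rw [sub_le_iff_le_add, div_le_iff₀ hρ, add_mul, div_mul_cancel₀ _ hρ.ne', one_mul]
            have := norm_sub_norm_le (F0 t) (f t)
            rw [norm_sub_rev (F0 t) (f t)] at this
            linarith
          calc K0 * m t * ‖kb w t‖ ≤ K0 * (‖f t - F0 t‖ / ρ) * ‖kb w t‖ := by gcongr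
            _ = _ := by ring
      _ ≤ K0 / ρ * (M + 1) := by
          rw [integral_const_mul]
          gcongr
  have hc1 : ∀ t, 1 ≤ (c t).re := fun t => by linarith [hcre t, hb0 t]
  let τ : Tc → ℂ := fun t => Complex.exp (1 / 4 * Complex.log (u t) + 1 / 2 * Complex.log (c t))
  have hτH : H τ := by
    have h1 : H fun t => Complex.log (u t) :=
      (H_one_sub (conj w)).comp_half (η := 1 - ‖conj w‖) (by linarith) (ae_of_all _ hure)
        diffOn_log
    have h2 : H fun t => Complex.log (c t) :=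
      hcH.comp_half one_pos (ae_of_all _ hc1) diffOn_log
    exact ((h1.const_mul _).add (h2.const_mul _)).comp_entire Complex.differentiable_exp
  have hsec := fun t => sector (u := u t) (c := c t) (by linarith [hure t]) (by linarith [hc1 t])
  have hτ1 : ∀ t, c0 * ‖τ t‖ ≤ (τ t).re := fun t => (hsec t).1
  have hτ2 : ∀ t, ‖τ t‖ ^ 4 = ‖u t‖ * ‖c t‖ ^ 2 := fun t => (hsec t).2
  have hτ0 : ∀ t, 0 ≤ (τ t).re := fun t => le_trans (by positivity) (hτ1 t)
  let χ : Tc → ℂ := fun t => τ t ^ 4 * (((ε : ℂ) + τ t)⁻¹) ^ 3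
  have hχH : H χ := by
    have h1 : H fun t => ((ε : ℂ) + τ t)⁻¹ :=
      ((H.const (ε : ℂ)).add hτH).comp_half hεp (ae_of_all _ fun t => by
        simpa using hτ0 t) diffOn_inv
    exact (hτH.pow 4).mul (h1.pow 3)
  have hχ := fun t => chi_re hεp (hτ0 t)
  let Ψ : Tc → ℂ := fun t => Complex.exp (-χ t)
  have hΨH : H Ψ := hχH.neg.comp_entire Complex.differentiable_exp
  have hΨ1 : ∀ t, ‖Ψ t‖ ≤ E / Real.exp (c0 * ‖τ t‖) := by
    intro t
    rw [← hexp, ← Real.exp_sub, Complex.norm_exp]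
    apply Real.exp_le_exp.2
    have := (hχ t).1
    have h2 := hτ1 t
    simp only [Complex.neg_re, χ]
    linarith
  have hΨ2 : ∀ t, ‖Ψ t‖ ≤ E := fun t => (hΨ1 t).trans
    (div_le_self (by linarith) (Real.one_le_exp (by positivity)))
  have hΨ3 : ∀ t, ‖Ψ t - 1‖ ≤ (E + 2) * (‖τ t‖ ^ 4 / ε ^ 3) := by
    intro t
    have h1 := norm_exp_neg_sub_one (z := χ t) (A := 7 * ε) (by
      have := (hχ t).1
      have h2 := hτ0 t
      simp only [χ]
      linarith)
    rw [hexp] at h1
    refine h1.trans ?_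
    gcongr
    exact (hχ t).2
  refine ⟨fun t => F0 t * Ψ t, hF0H.mul hΨH, ae_of_all _ fun t => ?_, ?_⟩
  · have h1 : K0 * m t ≤ ‖τ t‖ ^ 4 := by
      rw [hτ2]
      have h2 : b t ≤ ‖c t‖ := by
        have := (le_abs_self _).trans (Complex.abs_re_le_norm (c t))
        linarith [hcre t]
      have h3 : b t ^ 2 ≤ ‖c t‖ ^ 2 := pow_le_pow_left₀ (hb0 t) h2 2
      calc K0 * m t = ‖u t‖ * b t ^ 2 := by
            rw [hb2]
            linear_combination (-(K0 * m t)) * huk t
        _ ≤ _ := by gcongr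
    have h2 : ‖F0 t‖ / ρ ≤ Real.exp (c0 * ‖τ t‖) := by
      refine le_trans ?_ (one_add_le_exp (by positivity))
      have h3 : ‖F0 t‖ / ρ - 1 ≤ m t := le_max_left _ _
      have h4 : m t ≤ (c0 * ‖τ t‖) ^ 4 / 24 := by
        rw [mul_pow, le_div_iff₀ (by norm_num)]
        rw [hK0, div_mul_eq_mul_div, div_le_iff₀ (by positivity)] at h1
        linarith
      linarith
    have h3 := Real.exp_pos (c0 * ‖τ t‖)
    rw [div_le_iff₀ hρ] at h2
    calc ‖F0 t * Ψ t‖ = ‖F0 t‖ * ‖Ψ t‖ := norm_mul _ _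
      _ ≤ (Real.exp (c0 * ‖τ t‖) * ρ) * (E / Real.exp (c0 * ‖τ t‖)) := by
          gcongr
          exact hΨ1 t
      _ = ρ' := by rw [hE]; field_simp
  · have hc2 : Integrable (fun t => ‖c t‖ ^ 2) mu :=
      (memLp_two_iff_integrable_sq_norm hcH.1.1).1 (top_two hcH.1)
    calc ∫ t, ‖f t - F0 t * Ψ t‖ * ‖kb w t‖ ∂mu
        ≤ ∫ t, (E * (‖f t - F0 t‖ * ‖kb w t‖) + ρ * (E + 2) / ε ^ 3 * ‖c t‖ ^ 2) ∂mu := by
          refine integral_mono_of_nonneg (ae_of_all _ fun t => by positivity)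
            ((hI.const_mul _).add (hc2.const_mul _)) ?_
          filter_upwards [hb] with t ht
          have e1 : f t - F0 t * Ψ t = (f t - F0 t) * Ψ t - f t * (Ψ t - 1) := by ring
          have h1 : ‖f t - F0 t * Ψ t‖ ≤
              ‖f t - F0 t‖ * E + ρ * ((E + 2) * (‖τ t‖ ^ 4 / ε ^ 3)) := by
            rw [e1]
            refine (norm_sub_le _ _).trans ?_
            rw [norm_mul, norm_mul]
            gcongr
            · exact hΨ2 t
            · exact hΨ3 t
          calc ‖f t - F0 t * Ψ t‖ * ‖kb w t‖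
              ≤ (‖f t - F0 t‖ * E + ρ * ((E + 2) * (‖τ t‖ ^ 4 / ε ^ 3))) * ‖kb w t‖ := by
                gcongr
            _ = E * (‖f t - F0 t‖ * ‖kb w t‖) +
                ρ * (E + 2) / ε ^ 3 * ‖c t‖ ^ 2 * (‖u t‖ * ‖kb w t‖) := by
                rw [hτ2]; ring
            _ = _ := by rw [huk, mul_one]
      _ ≤ _ := by
          rw [integral_add (hI.const_mul _) (hc2.const_mul _), integral_const_mul,
            integral_const_mul]
          gcongr
          linarith

end Pool.Agent.MP_0811ac_an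

end

-- part MP_0811ac_an.Main
section

/-!
Symbols acting on the Hardy class form a class stable under holomorphic functional calculus;
Wiener-Hopf factorisation; the essential range lies in the spectrum.
-/

set_option autoImplicit false

open MeasureTheory AddCircle Filter Topology
open scoped ENNReal NNReal ComplexConjugate Real

namespace Pool.Agent.MP_0811ac_an

/-- Symbols whose Toeplitz operator is bounded on the Hardy class. -/
def Acts (f : Tc → ℂ) : Prop :=
  MemLp f ⊤ mu ∧ ∃ M : ℝ, 0 ≤ M ∧ ∀ w : ℂ, ‖w‖ < 1 → ∀ g B, H g → (∀ᵐ t ∂mu, ‖g t‖ ≤ B) →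
    ‖∫ t, f t * g t * kb w t ∂mu‖ ≤ M * B

lemma bound_nonneg {g : Tc → ℂ} {B : ℝ} (hB : ∀ᵐ t ∂mu, ‖g t‖ ≤ B) : 0 ≤ B := by
  obtain ⟨t, ht⟩ := hB.exists
  exact (norm_nonneg _).trans ht

lemma H.acts {F : Tc → ℂ} (hF : H F) : Acts F := by
  obtain ⟨C, hC0, hC⟩ := exists_bound hF.1
  refine ⟨hF.1, C, hC0, fun w hw g B hg hB => norm_integral_mul_kb_le hw (hF.mul hg) ?_⟩
  filter_upwards [hC, hB] with t h1 h2
  rw [norm_mul]
  gcongr

lemma Acts.sub {f g : Tc → ℂ} (hf : Acts f) (hg : Acts g) : Acts fun t => f t - g t := by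
  obtain ⟨hf1, M, hM0, hM⟩ := hf
  obtain ⟨hg1, N, hN0, hN⟩ := hg
  refine ⟨hf1.sub hg1, M + N, by positivity, fun w hw h B hh hB => ?_⟩
  simp only [sub_mul]
  rw [integral_sub (top_int (top_mul (top_mul hf1 hh.1) (memLp_kb hw ⊤)))
    (top_int (top_mul (top_mul hg1 hh.1) (memLp_kb hw ⊤))), add_mul]
  exact (norm_sub_le _ _).trans (add_le_add (hM w hw h B hh hB) (hN w hw h B hh hB))

lemma Acts.proj {f g : Tc → ℂ} (hf : Acts f) (hg : H g) :
    ∃ y, H y ∧ ∀ n : ℤ, 0 ≤ n → fourierCoeff y n = fourierCoeff (fun t => f t * g t) n := by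
  obtain ⟨hf1, M, hM0, hM⟩ := hf
  obtain ⟨B, -, hB⟩ := exists_bound hg.1
  obtain ⟨y, h1, -, h2⟩ := exists_H_of_bound (top_two (top_mul hf1 hg.1))
    (fun w hw => hM w hw g B hg hB)
  exact ⟨y, h1, h2⟩

theorem Acts.comp {f : Tc → ℂ} (hf : Acts f) {ρ R : ℝ} (hb : ∀ᵐ t ∂mu, ‖f t‖ ≤ ρ) (hR : ρ < R)
    {Φ : ℂ → ℂ} (hΦ : DifferentiableOn ℂ Φ (Metric.ball 0 R)) : Acts fun t => Φ (f t) := by
  obtain ⟨hf1, M, hM0, hM⟩ := hf
  have hρ0 := bound_nonneg hb
  obtain ⟨ρ1, h1, h2⟩ := exists_between hR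
  obtain ⟨ρ2, h3, h4⟩ := exists_between h2
  have hb1 : ∀ᵐ t ∂mu, ‖f t‖ ≤ ρ1 := by
    filter_upwards [hb] with t ht using ht.trans h1.le
  obtain ⟨C, hC⟩ := exists_trunc hf1 hM0 hM (hρ0.trans_lt h1) h3 hb1
  have hsub : Metric.closedBall (0 : ℂ) ρ2 ⊆ Metric.ball 0 R := Metric.closedBall_subset_ball h4
  obtain ⟨A, hA⟩ := (isCompact_closedBall (0 : ℂ) ρ2).exists_bound_of_continuousOn
    (hΦ.continuousOn.mono hsub)
  obtain ⟨L, hL⟩ := (isCompact_closedBall (0 : ℂ) ρ2).exists_bound_of_continuousOn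
    ((hΦ.deriv Metric.isOpen_ball).continuousOn.mono hsub)
  have h0mem : (0 : ℂ) ∈ Metric.closedBall (0 : ℂ) ρ2 :=
    Metric.mem_closedBall_self (by linarith)
  have hA0 : 0 ≤ A := (norm_nonneg _).trans (hA 0 h0mem)
  have hL0 : 0 ≤ L := (norm_nonneg _).trans (hL 0 h0mem)
  have hLip : ∀ x ∈ Metric.closedBall (0 : ℂ) ρ2, ∀ y ∈ Metric.closedBall (0 : ℂ) ρ2,
      ‖Φ y - Φ x‖ ≤ L * ‖y - x‖ := fun x hx y hy =>
    (convex_closedBall (0 : ℂ) ρ2).norm_image_sub_le_of_norm_deriv_le
      (fun z hz => hΦ.differentiableAt (Metric.isOpen_ball.mem_nhds (hsub hz))) hL hx hy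
  have hfm : ∀ᵐ t ∂mu, f t ∈ Metric.closedBall (0 : ℂ) ρ2 := by
    filter_upwards [hb1] with t ht
    rw [mem_closedBall_zero_iff]; linarith
  have hmeas : AEStronglyMeasurable (fun t => Φ (f t)) mu := by
    classical
    have hm : Measurable ((Metric.closedBall (0 : ℂ) ρ2).piecewise Φ fun _ => 0) :=
      ContinuousOn.measurable_piecewise (hΦ.continuousOn.mono hsub) continuousOn_const
        measurableSet_closedBall
    refine (hm.comp_aemeasurable hf1.1.aemeasurable).aestronglyMeasurable.congr ?_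
    filter_upwards [hfm] with t ht
    simp only [Function.comp_apply, Set.piecewise_eq_of_mem _ _ _ ht]
  have hv : MemLp (fun t => Φ (f t)) ⊤ mu := memLp_top_of_bound hmeas A (by
    filter_upwards [hfm] with t ht using hA _ ht)
  refine ⟨hv, A + L * max C 0, by positivity, fun w hw g B hg hB => ?_⟩
  have hB0 := bound_nonneg hB
  obtain ⟨F, hF, hF1, hF2⟩ := hC w hw
  have hFm : ∀ᵐ t ∂mu, F t ∈ Metric.closedBall (0 : ℂ) ρ2 := by
    filter_upwards [hF1] with t ht
    rwa [mem_closedBall_zero_iff]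
  have hV : H fun t => Φ (F t) := hF.comp_ball (c := 0) h4 (by simpa using hF1) hΦ
  have e1 : ∫ t, Φ (f t) * g t * kb w t ∂mu =
      ∫ t, Φ (F t) * g t * kb w t ∂mu + ∫ t, (Φ (f t) - Φ (F t)) * g t * kb w t ∂mu := by
    have hd : MemLp (fun t => Φ (f t) - Φ (F t)) ⊤ mu := hv.sub hV.1
    rw [← integral_add (top_int (top_mul (top_mul hV.1 hg.1) (memLp_kb hw ⊤)))
      (top_int (top_mul (top_mul hd hg.1) (memLp_kb hw ⊤)))]
    congr 1; ext t; ring
  have e2 : ‖∫ t, Φ (F t) * g t * kb w t ∂mu‖ ≤ A * B := by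
    refine norm_integral_mul_kb_le hw (hV.mul hg) ?_
    filter_upwards [hFm, hB] with t h5 h6
    rw [norm_mul]
    gcongr
    exact hA _ h5
  have hI : Integrable (fun t => ‖f t - F t‖ * ‖kb w t‖) mu := by
    have := (top_int (top_mul (hf1.sub hF.1) (memLp_kb hw ⊤))).norm
    simpa only [norm_mul, Pi.sub_apply] using this
  have e3 : ‖∫ t, (Φ (f t) - Φ (F t)) * g t * kb w t ∂mu‖ ≤ L * max C 0 * B := by
    calc _ ≤ ∫ t, L * B * (‖f t - F t‖ * ‖kb w t‖) ∂mu := by
          refine norm_integral_le_of_norm_le (hI.const_mul _) ?_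
          filter_upwards [hFm, hfm, hB] with t h5 h6 h7
          rw [norm_mul, norm_mul]
          calc ‖Φ (f t) - Φ (F t)‖ * ‖g t‖ * ‖kb w t‖ ≤ L * ‖f t - F t‖ * B * ‖kb w t‖ := by
                gcongr
                exact hLip _ h5 _ h6
            _ = _ := by ring
      _ ≤ L * B * max C 0 := by
          rw [integral_const_mul]
          gcongr
          exact hF2.trans (le_max_left _ _)
      _ = _ := by ring
  rw [e1, add_mul]
  exact (norm_add_le _ _).trans (add_le_add e2 e3)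

/-- Wiener-Hopf factorisation solves the Toeplitz equation inside the Hardy class. -/
theorem Acts.surj {f : Tc → ℂ} (hf : Acts f) {ρ : ℝ} (hb : ∀ᵐ t ∂mu, ‖f t‖ ≤ ρ) (hρ : ρ < 1)
    {b : Tc → ℂ} (hbH : H b) :
    ∃ g, H g ∧ ∀ n : ℤ, 0 ≤ n → fourierCoeff (fun t => (1 - f t) * g t) n = fourierCoeff b n := by
  have hv : Acts fun t => Complex.log (1 - f t) := by
    refine hf.comp hb hρ (Φ := fun z => Complex.log (1 - z)) fun z hz => ?_
    rw [mem_ball_zero_iff] at hz
    refine (DifferentiableAt.clog (by fun_prop) (Or.inl ?_)).differentiableWithinAt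
    have := (abs_le.1 (Complex.abs_re_le_norm z)).2
    simp only [Complex.sub_re, Complex.one_re]
    linarith
  obtain ⟨vp, hvp, hvp1⟩ := hv.proj (H.const 1)
  simp only [mul_one] at hvp1
  let vm : Tc → ℂ := fun t => Complex.log (1 - f t) - vp t
  have hvm : Acts vm := hv.sub hvp.acts
  have hvm0 : ∀ n : ℤ, 0 ≤ n → fourierCoeff vm n = 0 := fun n hn => by
    rw [cf_sub (top_int hv.1) (top_int hvp.1), hvp1 n hn, sub_self]
  obtain ⟨B, -, hB⟩ := exists_bound hvm.1
  have hE : Acts fun t => Complex.exp (-vm t) :=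
    hvm.comp hB (R := B + 1) (by linarith) (Φ := fun z => Complex.exp (-z)) (by fun_prop)
  obtain ⟨y, hy, hy1⟩ := hE.proj hbH
  have hcv : H fun t => conj (vm t) :=
    ⟨memLp_conj hvm.1, fun n hn => by rw [cf_conj, hvm0 _ (by omega), map_zero]⟩
  have hce : H fun t => Complex.exp (conj (vm t)) := hcv.comp_entire Complex.differentiable_exp
  have hee : (fun t => Complex.exp (vm t)) = fun t => conj (Complex.exp (conj (vm t))) := by
    ext t; rw [← Complex.exp_conj, Complex.conj_conj]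
  have hem : MemLp (fun t => Complex.exp (vm t)) ⊤ mu := by
    rw [hee]; exact memLp_conj hce.1
  have he0 : ∀ n : ℤ, 0 < n → fourierCoeff (fun t => Complex.exp (vm t)) n = 0 := fun n hn => by
    rw [hee, cf_conj, hce.2 _ (by omega), map_zero]
  refine ⟨fun t => Complex.exp (-vp t) * y t,
    (hvp.neg.comp_entire Complex.differentiable_exp).mul hy, fun n hn => ?_⟩
  let x : Tc → ℂ := fun t => y t - Complex.exp (-vm t) * b t
  have hx : MemLp x ⊤ mu := hy.1.sub (top_mul hE.1 hbH.1)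
  have hx0 : ∀ n : ℤ, 0 ≤ n → fourierCoeff x n = 0 := fun n hn => by
    rw [cf_sub (top_int hy.1) (top_int (top_mul hE.1 hbH.1)), hy1 n hn, sub_self]
  have hae : (fun t => (1 - f t) * (Complex.exp (-vp t) * y t)) =ᵐ[mu]
      fun t => Complex.exp (vm t) * x t + b t := by
    filter_upwards [hb] with t ht
    have hne : 1 - f t ≠ 0 := by
      intro h
      have : f t = 1 := by linear_combination -h
      rw [this, norm_one] at ht
      linarith
    have h1 : Complex.exp (vm t) = (1 - f t) * Complex.exp (-vp t) := by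
      simp only [vm]
      rw [sub_eq_add_neg (Complex.log _), Complex.exp_add, Complex.exp_log hne]
    have h2 : Complex.exp (vm t) * Complex.exp (-vm t) = 1 := by
      rw [← Complex.exp_add, add_neg_cancel, Complex.exp_zero]
    simp only [x]
    linear_combination (-y t) * h1 + b t * h2
  rw [cf_congr hae, cf_add (top_int (top_mul hem hx)) (top_int hbH.1),
    cf_mul_eq_zero (top_two hem) (top_two hx) n, zero_add]
  intro m
  by_cases hm : 0 < m
  · exact Or.inl (he0 m hm)
  · exact Or.inr (hx0 _ (by omega))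

theorem inj_of_lt {f : Tc → ℂ} (hf : MemLp f ⊤ mu) {ρ : ℝ} (hb : ∀ᵐ t ∂mu, ‖f t‖ ≤ ρ)
    (hρ : ρ < 1) {g : Tc → ℂ} (hg : H g)
    (h : ∀ n : ℤ, 0 ≤ n → fourierCoeff (fun t => (1 - f t) * g t) n = 0) : g =ᵐ[mu] 0 := by
  have hu : MemLp (fun t => 1 - f t) ⊤ mu := (memLp_top_const 1).sub hf
  have h1 := integral_mul_eq_zero (top_two (top_mul hu hg.1)) (top_two (memLp_conj hg.1))
    (fun m => by
      by_cases hm : 0 ≤ m
      · exact Or.inl (h m hm)
      · right
        rw [cf_conj, neg_neg, hg.2 m (by omega), map_zero])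
  have hi : Integrable (fun t => (1 - f t) * g t * conj (g t)) mu :=
    top_int (top_mul (top_mul hu hg.1) (memLp_conj hg.1))
  have h2 : ∫ t, ((1 - f t) * g t * conj (g t)).re ∂mu = 0 := by
    have := integral_re (𝕜 := ℂ) hi
    rw [h1] at this
    simpa only [RCLike.re_to_complex, Complex.zero_re] using this
  have h3 : Integrable (fun t => ‖g t‖ ^ 2) mu :=
    (memLp_two_iff_integrable_sq_norm hg.1.1).1 (top_two hg.1)
  have h4 : ∫ t, (1 - ρ) * ‖g t‖ ^ 2 ∂mu ≤ 0 := by
    rw [← h2]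
    refine integral_mono_ae (h3.const_mul _) hi.re ?_
    filter_upwards [hb] with t ht
    rw [mul_assoc, Complex.mul_conj', ← Complex.ofReal_pow, Complex.re_mul_ofReal]
    gcongr
    have := (abs_le.1 (Complex.abs_re_le_norm (f t))).2
    simp only [Complex.sub_re, Complex.one_re]
    linarith
  rw [integral_const_mul] at h4
  have h5 : ∫ t, ‖g t‖ ^ 2 ∂mu = 0 := by
    refine le_antisymm ?_ (integral_nonneg fun t => by positivity)
    by_contra h6
    push Not at h6
    have := mul_pos (sub_pos.2 hρ) h6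
    linarith
  rw [integral_eq_zero_iff_of_nonneg (fun t => by positivity) h3] at h5
  filter_upwards [h5] with t ht
  simpa using ht

/-- A symbol whose Toeplitz operator maps the Hardy class into itself does so boundedly. -/
theorem acts_of_maps {φ : Tc → ℂ} (hφ : MemLp φ ⊤ mu)
    (h : ∀ g, H g → ∃ y, H y ∧
      ∀ n : ℤ, 0 ≤ n → fourierCoeff y n = fourierCoeff (fun t => φ t * g t) n) : Acts φ := by
  obtain ⟨M, hM0, hM⟩ := uniform_bound (ι := {w : ℂ // ‖w‖ < 1})
    (ψ := fun w t => φ t * kb w.1 t) (fun w => top_int (top_mul hφ (memLp_kb w.2 ⊤))) (by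
      intro g hg
      obtain ⟨y, hy, hy1⟩ := h g hg
      obtain ⟨B, -, hB⟩ := exists_bound hy.1
      refine ⟨B, fun w => ?_⟩
      have h1 := integral_mul_kb_eq_zero w.2 (top_two ((top_mul hφ hg.1).sub hy.1))
        (fun n hn => by
          have := cf_sub (top_int (top_mul hφ hg.1)) (top_int hy.1) n
          rw [hy1 n hn, sub_self] at this
          exact this)
      simp only [Pi.sub_apply, sub_mul] at h1
      rw [integral_sub (top_int (top_mul (top_mul hφ hg.1) (memLp_kb w.2 ⊤)))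
        (top_int (top_mul hy.1 (memLp_kb w.2 ⊤))), sub_eq_zero] at h1
      have h2 := norm_integral_mul_kb_le w.2 hy hB
      rw [← h1] at h2
      simpa only [mul_left_comm, mul_assoc] using h2)
  refine ⟨hφ, M, hM0, fun w hw g B hg hB => ?_⟩
  have := hM g B hg hB ⟨w, hw⟩
  simpa only [mul_left_comm, mul_assoc] using this

lemma exists_shift {q : C(Tc, ℂ)} (hq : q ∈ Submodule.span ℂ (Set.range (@fourier 1))) :
    ∃ N : ℤ, 0 ≤ N ∧ ∀ m : ℤ, N < m → fourierCoeff q m = 0 := by
  induction hq using Submodule.span_induction with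
  | mem q hq =>
    obtain ⟨n, rfl⟩ := hq
    refine ⟨max n 0, le_max_right _ _, fun m hm => ?_⟩
    have := cf_fourier n m
    rwa [if_neg (by omega)] at this
  | zero =>
    refine ⟨0, le_rfl, fun m _ => ?_⟩
    have := cf_const 0 m
    rw [ite_self] at this
    exact this
  | add p q _ _ hp hq =>
    obtain ⟨N1, h1, h1'⟩ := hp
    obtain ⟨N2, h2, h2'⟩ := hq
    refine ⟨max N1 N2, by omega, fun m hm => ?_⟩
    have := cf_add (top_int (memLp_of_cont p.continuous ⊤))
      (top_int (memLp_of_cont q.continuous ⊤)) m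
    rw [h1' m (by omega), h2' m (by omega), add_zero] at this
    exact this
  | smul c p _ hp =>
    obtain ⟨N, h1, h2⟩ := hp
    refine ⟨N, h1, fun m hm => ?_⟩
    have := cf_const_mul p c m
    rw [h2 m hm, mul_zero] at this
    exact this

/-- If the Toeplitz operator is onto the Hardy class then the symbol is bounded below. -/
theorem lower_of_surj {u : Tc → ℂ} (hu : MemLp u ⊤ mu)
    (h : ∀ b, H b → ∃ g, H g ∧
      ∀ n : ℤ, 0 ≤ n → fourierCoeff (fun t => u t * g t) n = fourierCoeff b n) :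
    ∃ δ : ℝ, 0 < δ ∧ ∀ᵐ t ∂mu, δ ≤ ‖u t‖ := by
  let ι := {p : Tc → ℂ // MemLp p ⊤ mu ∧ ∀ n : ℤ, 0 < n → fourierCoeff p n = 0}
  let s : ι → ℝ := fun p => ∫ t, ‖u t‖ * ‖p.1 t‖ ∂mu
  have hs0 : ∀ p, 0 ≤ s p := fun p => integral_nonneg fun t => by positivity
  have key : ∀ b, H b → ∃ C, 0 ≤ C ∧ ∀ p : ι, ‖∫ t, b t * p.1 t ∂mu‖ ≤ C * s p := by
    intro b hb
    obtain ⟨g, hg, hg1⟩ := h b hb
    obtain ⟨B, hB0, hB⟩ := exists_bound hg.1
    refine ⟨B, hB0, fun p => ?_⟩
    have h1 := integral_mul_eq_zero (top_two ((top_mul hu hg.1).sub hb.1)) (top_two p.2.1)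
      (fun m => by
        by_cases hm : 0 ≤ m
        · left
          have := cf_sub (top_int (top_mul hu hg.1)) (top_int hb.1) m
          rw [hg1 m hm, sub_self] at this
          exact this
        · exact Or.inr (p.2.2 _ (by omega)))
    simp only [Pi.sub_apply, sub_mul] at h1
    rw [integral_sub (top_int (top_mul (top_mul hu hg.1) p.2.1))
      (top_int (top_mul hb.1 p.2.1)), sub_eq_zero] at h1
    rw [← h1, ← integral_const_mul]
    have hI : Integrable (fun t => ‖u t‖ * ‖p.1 t‖) mu := by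
      simpa only [norm_mul] using (top_int (top_mul hu p.2.1)).norm
    refine norm_integral_le_of_norm_le (hI.const_mul _) ?_
    filter_upwards [hB] with t ht
    rw [norm_mul, norm_mul]
    calc ‖u t‖ * ‖g t‖ * ‖p.1 t‖ ≤ ‖u t‖ * B * ‖p.1 t‖ := by gcongr
      _ = _ := by ring
  obtain ⟨M, hM0, hM⟩ := uniform_bound (ι := ι)
    (ψ := fun p t => ((s p)⁻¹ : ℝ) * p.1 t) (fun p => (top_int p.2.1).const_mul _) (by
      intro b hb
      obtain ⟨C, hC0, hC⟩ := key b hb
      refine ⟨C, fun p => ?_⟩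
      simp only [mul_left_comm (b _), integral_const_mul]
      rw [norm_mul, Complex.norm_real, Real.norm_of_nonneg (inv_nonneg.2 (hs0 p))]
      calc (s p)⁻¹ * ‖∫ t, b t * p.1 t ∂mu‖ ≤ (s p)⁻¹ * (C * s p) := by
            exact mul_le_mul_of_nonneg_left (hC p) (inv_nonneg.2 (hs0 p))
        _ = C * (s p / s p) := by ring
        _ ≤ C := mul_le_of_le_one_right hC0 (div_self_le_one _))
  have h2 : ∀ᵐ t ∂mu, ‖(fun _ : Tc => (1 : ℂ)) t‖ ≤ M * ‖u t‖ := by
    refine ae_le_of_span (memLp_const 1) ((top_two hu).norm.const_mul M)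
      (fun t => by positivity) fun q hq => ?_
    obtain ⟨N, hN0, hN⟩ := exists_shift hq
    let p : ι := ⟨fun t => fourier (-N) t * q t,
      top_mul (memLp_fourier _ _) (memLp_of_cont q.continuous ⊤), fun n hn => by
        rw [cf_fourier_mul]; exact hN _ (by omega)⟩
    have e1 : ∀ t, fourier N t * p.1 t = q t := by
      intro t
      simp only [p]
      rw [← mul_assoc, ← fourier_add, add_neg_cancel, fourier_zero, one_mul]
    have e2 : s p = ∫ t, ‖u t‖ * ‖q t‖ ∂mu := by
      simp only [s, p, norm_mul, norm_fourier, one_mul]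
    simp only [one_mul, mul_assoc]
    rw [integral_const_mul, ← e2]
    rcases (hs0 p).eq_or_lt with h0 | h0
    · obtain ⟨C, -, hC⟩ := key _ (H.fourier hN0)
      have := hC p
      simp only [e1] at this
      rw [← h0] at this ⊢
      simpa using this
    · have := hM _ 1 (H.fourier hN0) (ae_of_all _ fun t => (norm_fourier N t).le) p
      simp only [mul_left_comm (fourier N _), integral_const_mul, e1] at this
      rw [norm_mul, Complex.norm_real, Real.norm_of_nonneg (inv_nonneg.2 (hs0 p)), mul_one,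
        inv_mul_le_iff₀ h0] at this
      rwa [mul_comm]
  refine ⟨(M + 1)⁻¹, by positivity, ?_⟩
  filter_upwards [h2] with t ht
  rw [norm_one] at ht
  rw [inv_le_iff_one_le_mul₀' (by positivity)]
  nlinarith [norm_nonneg (u t)]

end Pool.Agent.MP_0811ac_an

end
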