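import Pool.Agent.MP_0811ac_an.Mg.Main
import Pool.Agent.MP_0811ac_an.Defs

/-!
The Toeplitz operator as a bounded operator on the Banach space `Hinf`, from a bound on
analytic polynomials; its spectral radius.
-/

set_option autoImplicit false

open MeasureTheory AddCircle Filter Topology
open scoped ENNReal NNReal ComplexConjugate Real

namespace Pool.Agent.MP_0811ac_an

lemma hasSum_pair {x y : Tc → ℂ} (hx : MemLp x 2 mu) (hy : MemLp y 2 mu) :
    HasSum (fun i : ℤ => fourierCoeff x (-i) * fourierCoeff y i) (∫ t, x t * y t ∂mu) := by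
  have hx' := memLp_conj hx
  have key := (fourierBasis (T := 1)).hasSum_inner_mul_inner (hx'.toLp _) (hy.toLp _)
  have e1 : inner ℂ (hx'.toLp _) (hy.toLp _) = ∫ t, x t * y t ∂mu := by
    rw [L2.inner_def]
    apply integral_congr_ae
    filter_upwards [hx'.coeFn_toLp, hy.coeFn_toLp] with t h1 h2
    rw [h1, h2]
    simp [mul_comm]
  have e2 : ∀ i : ℤ, inner ℂ (fourierBasis (T := 1) i) (hy.toLp _) = fourierCoeff y i := by
    intro i
    rw [← HilbertBasis.repr_apply_apply, fourierBasis_repr]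
    exact cf_congr hy.coeFn_toLp i
  have e3 : ∀ i : ℤ, inner ℂ (hx'.toLp _) (fourierBasis (T := 1) i) = fourierCoeff x (-i) := by
    intro i
    rw [← inner_conj_symm, ← HilbertBasis.repr_apply_apply, fourierBasis_repr,
      cf_congr hx'.coeFn_toLp i, cf_conj]
    simp
  simpa only [e1, e2, e3] using key

lemma hasSum_pair_nat {x g : Tc → ℂ} (hx : MemLp x 2 mu) (hg : H g) :
    HasSum (fun i : ℕ => fourierCoeff x (-(i : ℤ)) * fourierCoeff g i) (∫ t, x t * g t ∂mu) := by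
  have h := hasSum_pair hx (top_two hg.1)
  refine ((Nat.cast_injective (R := ℤ)).hasSum_iff fun m hm => ?_).2 h
  have : m < 0 := by
    by_contra h0
    exact hm ⟨m.toNat, by omega⟩
  rw [hg.2 m this, mul_zero]

lemma fourier_pow (a : ℤ) (n : ℕ) (t : Tc) : fourier a t ^ n = fourier (a * n) t := by
  induction n with
  | zero => simp
  | succ n ih => rw [pow_succ, ih, ← fourier_add]; congr 2; push_cast; ring

lemma kb_geom {w : ℂ} (hw : ‖w‖ < 1) (N : ℕ) (t : Tc) :
    kb w t = ∑ n ∈ Finset.range N, w ^ n * fourier (-(n : ℤ)) t +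
      w ^ N * (fourier (-(N : ℤ)) t * kb w t) := by
  have h0 : (1 - w * fourier (-1) t) * kb w t = 1 := mul_inv_cancel₀ (one_sub_ne hw (-1) t)
  induction N with
  | zero => simp
  | succ N ih =>
    rw [Finset.sum_range_succ]
    have e : fourier (-((N + 1 : ℕ) : ℤ)) t = fourier (-(N : ℤ)) t * fourier (-1) t := by
      rw [← fourier_add]; congr 2; push_cast; ring
    rw [e]
    linear_combination ih + w ^ N * fourier (-(N : ℤ)) t * h0

lemma norm_kb_le {w : ℂ} (hw : ‖w‖ < 1) (t : Tc) : ‖kb w t‖ ≤ (1 - ‖w‖)⁻¹ := by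
  rw [kb, norm_inv]
  refine inv_anti₀ (by linarith) ?_
  exact (re_one_sub w (-1) t).trans (Complex.re_le_norm _)

/-- Truncated Abel means are almost contractive. -/
lemma trunc_bound {g : Tc → ℂ} (hg : H g) {B : ℝ} (hB : ∀ᵐ t ∂mu, ‖g t‖ ≤ B) {r : ℝ}
    (hr0 : 0 ≤ r) (hr : r < 1) (N : ℕ) (s : Tc) :
    ‖∑ n ∈ Finset.range N, (r : ℂ) ^ n * fourierCoeff g n * fourier n s‖ ≤
      B + r ^ N * (B * (1 - r)⁻¹) := by
  set w : ℂ := (r : ℂ) * fourier 1 s with hwdef
  have hw : ‖w‖ < 1 := norm_rmul hr0 hr 1 s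
  have hwn : ‖w‖ = r := by
    rw [hwdef, norm_mul, norm_fourier, mul_one, Complex.norm_real, Real.norm_of_nonneg hr0]
  have hB0 := bound_nonneg hB
  have h1 := norm_integral_mul_kb_le hw hg hB
  have hI : Integrable (fun t => g t * (fourier (-(N : ℤ)) t * kb w t)) mu :=
    top_int (top_mul hg.1 (top_mul (memLp_fourier _ _) (memLp_kb hw ⊤)))
  have hJ : ∀ n : ℕ, Integrable (fun t => w ^ n * (fourier (-(n : ℤ)) t * g t)) mu := fun n =>
    (top_int (top_mul (memLp_fourier _ _) hg.1)).const_mul _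
  have h2 : ∫ t, g t * kb w t ∂mu =
      ∑ n ∈ Finset.range N, (r : ℂ) ^ n * fourierCoeff g n * fourier n s +
        w ^ N * ∫ t, g t * (fourier (-(N : ℤ)) t * kb w t) ∂mu := by
    have e : ∀ n : ℕ, (r : ℂ) ^ n * fourierCoeff g n * fourier n s =
        ∫ t, w ^ n * (fourier (-(n : ℤ)) t * g t) ∂mu := by
      intro n
      rw [integral_const_mul, ← cf_def, hwdef, mul_pow, fourier_pow, one_mul]
      ring
    simp only [e]
    rw [← integral_finsetSum _ fun n _ => hJ n, ← integral_const_mul,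
      ← integral_add (integrable_finsetSum _ fun n _ => hJ n) (hI.const_mul _)]
    congr 1; ext t
    conv_lhs => rw [kb_geom hw N t]
    rw [mul_add, Finset.mul_sum]
    congr 1
    · exact Finset.sum_congr rfl fun n _ => by ring
    · ring
  have h3 : ‖∫ t, g t * (fourier (-(N : ℤ)) t * kb w t) ∂mu‖ ≤ B * (1 - r)⁻¹ := by
    have := norm_integral_le_of_norm_le_const (μ := mu) (C := B * (1 - r)⁻¹)
      (f := fun t => g t * (fourier (-(N : ℤ)) t * kb w t)) (by
        filter_upwards [hB] with t ht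
        rw [norm_mul, norm_mul, norm_fourier, one_mul, ← hwn]
        exact mul_le_mul ht (norm_kb_le hw t) (norm_nonneg _) hB0)
    simpa using this
  rw [← sub_eq_iff_eq_add] at h2
  rw [← h2]
  refine (norm_sub_le _ _).trans (add_le_add h1 ?_)
  rw [norm_mul, norm_pow, hwn]
  gcongr

/-- A bound on analytic polynomials extends to the Hardy class. -/
lemma bound_of_poly {ψ : Tc → ℂ} (hψ : MemLp ψ 2 mu) {M : ℝ}
    (h : ∀ p B, H p → (∃ N : ℤ, ∀ n : ℤ, N < n → fourierCoeff p n = 0) →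
      (∀ᵐ t ∂mu, ‖p t‖ ≤ B) → ‖∫ t, ψ t * p t ∂mu‖ ≤ M * B)
    {g : Tc → ℂ} (hg : H g) {B : ℝ} (hB : ∀ᵐ t ∂mu, ‖g t‖ ≤ B) :
    ‖∫ t, ψ t * g t ∂mu‖ ≤ M * B := by
  have hs := hasSum_pair_nat hψ hg
  set a : ℕ → ℂ := fun i => fourierCoeff ψ (-(i : ℤ)) * fourierCoeff g i with ha
  have hsn : Summable fun i => ‖a i‖ := summable_norm_iff.2 hs.summable
  have hle : ∀ r : ℝ, 0 ≤ r → r < 1 → ∀ n, ‖(r : ℂ) ^ n * a n‖ ≤ ‖a n‖ := by
    intro r hr0 hr n
    rw [norm_mul, norm_pow, Complex.norm_real, Real.norm_of_nonneg hr0]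
    exact mul_le_of_le_one_left (norm_nonneg _) (pow_le_one₀ hr0 hr.le)
  have h1 : ∀ r : ℝ, 0 ≤ r → r < 1 → ‖∑' n, (r : ℂ) ^ n * a n‖ ≤ M * B := by
    intro r hr0 hr
    have hsr : Summable fun n => (r : ℂ) ^ n * a n :=
      .of_norm_bounded hsn (hle r hr0 hr)
    have hl : Tendsto (fun N : ℕ => M * (B + r ^ N * (B * (1 - r)⁻¹))) atTop
        (𝓝 (M * (B + 0 * (B * (1 - r)⁻¹)))) :=
      (((tendsto_pow_atTop_nhds_zero_of_lt_one hr0 hr).mul_const _).const_add _).const_mul _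
    rw [zero_mul, add_zero] at hl
    refine le_of_tendsto_of_tendsto' hsr.hasSum.tendsto_sum_nat.norm hl fun N => ?_
    have hJ : ∀ n : ℕ, H fun s => (r : ℂ) ^ n * fourierCoeff g n * fourier n s := fun n =>
      (H.fourier (Int.natCast_nonneg n)).const_mul _
    have h2 := h (fun s => ∑ n ∈ Finset.range N, (r : ℂ) ^ n * fourierCoeff g n * fourier n s) _
      (H.sum _ fun n _ => hJ n) ⟨N, fun m hm => by
        rw [cf_def]
        simp only [Finset.mul_sum]
        rw [integral_finsetSum _ fun n _ => top_int (top_mul (memLp_fourier _ _) (hJ n).1)]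
        refine Finset.sum_eq_zero fun n hn => ?_
        rw [← cf_def, cf_const_mul, cf_fourier, if_neg, mul_zero]
        have := Finset.mem_range.1 hn
        omega⟩ (ae_of_all _ (trunc_bound hg hB hr0 hr N))
    refine le_trans (le_of_eq ?_) h2
    congr 1
    simp only [Finset.mul_sum]
    rw [integral_finsetSum _ fun n _ => two_int (two_mul_top hψ (hJ n).1)]
    refine Finset.sum_congr rfl fun n _ => ?_
    simp only [ha, cf_def ψ, neg_neg]
    rw [mul_comm _ (fourierCoeff g n), ← mul_assoc, ← integral_const_mul]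
    congr 1; ext t; ring
  have h3 : Tendsto (fun r : ℝ => ∑' n, (r : ℂ) ^ n * a n) (𝓝[<] 1) (𝓝 (∑' n, a n)) := by
    refine tendsto_tsum_of_dominated_convergence hsn (fun n => ?_) ?_
    · have hc : Continuous fun r : ℝ => (r : ℂ) ^ n * a n := by fun_prop
      have := (hc.tendsto 1).mono_left (nhdsWithin_le_nhds (s := Set.Iio 1))
      simpa using this
    · filter_upwards [Ioo_mem_nhdsLT (zero_lt_one' ℝ)] with r hr using hle r hr.1.le hr.2
  rw [hs.tsum_eq] at h3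
  refine le_of_tendsto h3.norm ?_
  filter_upwards [Ioo_mem_nhdsLT (zero_lt_one' ℝ)] with r hr using h1 r hr.1.le hr.2

lemma H_coe (g : Hinf) : H (g : Lp ℂ ⊤ mu) := ⟨Lp.memLp _, g.2⟩

/-- The element of `Hinf` given by a function of the Hardy class. -/
noncomputable def H.toH {g : Tc → ℂ} (hg : H g) : Hinf :=
  ⟨hg.1.toLp _, fun n hn => (cf_congr hg.1.coeFn_toLp n).trans (hg.2 n hn)⟩

lemma H.toH_ae {g : Tc → ℂ} (hg : H g) : ((hg.toH : Lp ℂ ⊤ mu) : Tc → ℂ) =ᵐ[mu] g :=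
  hg.1.coeFn_toLp

lemma norm_le_of_ae (g : Lp ℂ ⊤ mu) {B : ℝ} (hB : ∀ᵐ t ∂mu, ‖g t‖ ≤ B) : ‖g‖ ≤ B := by
  have := Lp.norm_le_of_ae_bound (f := g) (bound_nonneg hB) hB
  simpa [measureUnivNNReal] using this

lemma Hinf_ext {a b : Hinf} (h : ∀ n : ℤ, 0 ≤ n →
    fourierCoeff ((a : Lp ℂ ⊤ mu) : Tc → ℂ) n = fourierCoeff ((b : Lp ℂ ⊤ mu) : Tc → ℂ) n) :
    a = b := by
  have hd := (H_coe a).sub (H_coe b)
  have h0 := ae_zero_of_cf (top_two hd.1) fun m => by
    by_cases hm : 0 ≤ m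
    · rw [cf_sub (top_int (H_coe a).1) (top_int (H_coe b).1), h m hm, sub_self]
    · exact hd.2 m (by omega)
  refine Subtype.ext (Lp.ext ?_)
  filter_upwards [h0] with t ht using sub_eq_zero.1 ht

instance : CompleteSpace Hinf := by
  let e : ℤ → Lp ℂ ⊤ mu →L[ℂ] ℂ := fun n => pairCLM (top_int (memLp_fourier (-n) ⊤))
  have he : ∀ n g, e n g = fourierCoeff g n := by
    intro n g
    rw [cf_def]
    simp only [e, pairCLM_apply, mul_comm]
  have hK : IsClosed (Hinf : Set (Lp ℂ ⊤ mu)) := by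
    have : (Hinf : Set (Lp ℂ ⊤ mu)) = ⋂ n : ℤ, ⋂ _ : n < 0, {v | e n v = 0} := by
      ext v; simp only [Set.mem_iInter, Set.mem_ofPred_eq, he]; rfl
    rw [this]
    exact isClosed_iInter fun n => isClosed_iInter fun _ =>
      isClosed_eq (e n).continuous continuous_const
  exact hK.completeSpace_coe

theorem acts_of_poly {f : Tc → ℂ} (hf : MemLp f ⊤ mu) {C : ℝ}
    (h : ∀ p : Hinf, (∃ N : ℤ, ∀ n : ℤ, N < n → fourierCoeff ((p : Lp ℂ ⊤ mu) : Tc → ℂ) n = 0) →
      ∃ q : Hinf, (∀ n : ℤ, 0 ≤ n → fourierCoeff ((q : Lp ℂ ⊤ mu) : Tc → ℂ) n =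
        fourierCoeff (fun t => f t * (p : Lp ℂ ⊤ mu) t) n) ∧ ‖q‖ ≤ C * ‖p‖) : Acts f := by
  refine ⟨hf, max C 0, le_max_right _ _, fun w hw g B hg hB => ?_⟩
  have := bound_of_poly (ψ := fun t => f t * kb w t) (top_two (top_mul hf (memLp_kb hw ⊤)))
    (M := max C 0) (fun p B hp ⟨N, hN⟩ hB => ?_) hg hB
  · simpa only [mul_right_comm] using this
  obtain ⟨q, hq, hq1⟩ := h hp.toH ⟨N, fun n hn => by rw [cf_congr hp.toH_ae, hN n hn]⟩
  have hy := H_coe q
  have e : ∀ n, fourierCoeff (fun t => f t * (hp.toH : Lp ℂ ⊤ mu) t) n =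
      fourierCoeff (fun t => f t * p t) n := fun n => cf_congr (by
    filter_upwards [hp.toH_ae] with t ht
    rw [ht]) n
  have h1 := integral_mul_kb_eq_zero hw (top_two ((top_mul hf hp.1).sub hy.1))
    (fun n hn => by
      have := cf_sub (top_int (top_mul hf hp.1)) (top_int hy.1) n
      rw [hq n hn, e, sub_self] at this
      exact this)
  simp only [Pi.sub_apply, sub_mul] at h1
  rw [integral_sub (top_int (top_mul (top_mul hf hp.1) (memLp_kb hw ⊤)))
    (top_int (top_mul hy.1 (memLp_kb hw ⊤))), sub_eq_zero] at h1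
  have h2 := norm_integral_mul_kb_le hw hy (ae_le_norm _)
  rw [← h1] at h2
  have h3 : ‖hp.toH‖ ≤ B := norm_le_of_ae (hp.toH : Lp ℂ ⊤ mu) (by
    filter_upwards [hp.toH_ae, hB] with t h4 h5
    rwa [h4])
  simp only [mul_right_comm (f _) (kb w _)]
  refine h2.trans (hq1.trans ?_)
  exact mul_le_mul (le_max_left _ _) h3 (norm_nonneg _) (le_max_right _ _)

theorem Acts.exists_op {f : Tc → ℂ} (hf : Acts f) :
    ∃ T : Hinf →L[ℂ] Hinf, ∀ g : Hinf, ∀ n : ℤ, 0 ≤ n →
      fourierCoeff ((T g : Lp ℂ ⊤ mu) : Tc → ℂ) n =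
        fourierCoeff (fun t => f t * (g : Lp ℂ ⊤ mu) t) n := by
  obtain ⟨hf1, M, hM0, hM⟩ := hf
  have key : ∀ g : Hinf, ∃ q : Hinf, (∀ n : ℤ, 0 ≤ n →
      fourierCoeff ((q : Lp ℂ ⊤ mu) : Tc → ℂ) n =
        fourierCoeff (fun t => f t * (g : Lp ℂ ⊤ mu) t) n) ∧ ‖q‖ ≤ M * ‖g‖ := by
    intro g
    obtain ⟨y, h1, h2, h3⟩ := exists_H_of_bound (top_two (top_mul hf1 (H_coe g).1))
      (fun w hw => hM w hw _ _ (H_coe g) (ae_le_norm _))
    refine ⟨h1.toH, fun n hn => by rw [cf_congr h1.toH_ae, h3 n hn],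
      norm_le_of_ae (h1.toH : Lp ℂ ⊤ mu) ?_⟩
    filter_upwards [h1.toH_ae, h2] with t h4 h5
    rwa [h4]
  choose T0 h1 h2 using key
  have hI : ∀ g : Hinf, Integrable (fun t => f t * (g : Lp ℂ ⊤ mu) t) mu := fun g =>
    top_int (top_mul hf1 (H_coe g).1)
  refine ⟨LinearMap.mkContinuous ⟨⟨T0, fun a b => Hinf_ext fun n hn => ?_⟩,
    fun c a => Hinf_ext fun n hn => ?_⟩ M h2, h1⟩
  · rw [h1 _ n hn, Submodule.coe_add, Submodule.coe_add, cf_congr (Lp.coeFn_add _ _),
      fourierCoeff.add (top_int (H_coe _).1) (top_int (H_coe _).1), Pi.add_apply, h1 _ n hn,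
      h1 _ n hn, ← cf_add (hI a) (hI b)]
    refine cf_congr ?_ n
    filter_upwards [Lp.coeFn_add (a : Lp ℂ ⊤ mu) b] with t ht
    rw [ht, Pi.add_apply, mul_add]
  · simp only [RingHom.id_apply]
    rw [h1 _ n hn, Submodule.coe_smul, Submodule.coe_smul, cf_congr (Lp.coeFn_smul _ _),
      fourierCoeff.const_smul, h1 _ n hn, smul_eq_mul, ← cf_const_mul]
    refine cf_congr ?_ n
    filter_upwards [Lp.coeFn_smul c (a : Lp ℂ ⊤ mu)] with t ht
    rw [ht, Pi.smul_apply, smul_eq_mul, mul_left_comm]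

/-- Points outside the closed disc of radius the sup norm are regular; regular points stay away
from the essential range. -/
theorem spectralRadius_eq (f : Lp ℂ ⊤ mu) (hA : Acts f) (T : Hinf →L[ℂ] Hinf)
    (hT : ∀ g : Hinf, ∀ n : ℤ, 0 ≤ n → fourierCoeff ((T g : Lp ℂ ⊤ mu) : Tc → ℂ) n =
      fourierCoeff (fun t => f t * (g : Lp ℂ ⊤ mu) t) n) :
    spectralRadius ℂ T = ENNReal.ofReal ‖f‖ := by
  have hφ : MemLp f ⊤ mu := Lp.memLp f
  have hb := ae_le_norm f
  have hρ0 := norm_nonneg f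
  have hcf : ∀ (c : ℂ) (g : Hinf) (n : ℤ), 0 ≤ n →
      fourierCoeff ((((algebraMap ℂ (Hinf →L[ℂ] Hinf) c - T) g : Hinf) : Lp ℂ ⊤ mu) : Tc → ℂ) n =
        fourierCoeff (fun t => (c - f t) * (g : Lp ℂ ⊤ mu) t) n := by
    intro c g n hn
    have e : (algebraMap ℂ (Hinf →L[ℂ] Hinf) c - T) g = c • g - T g := by
      simp [Algebra.algebraMap_eq_smul_one]
    simp only [sub_mul]
    rw [e, cf_sub ((top_int (H_coe g).1).const_mul c) (top_int (top_mul hφ (H_coe g).1)),
      ← hT g n hn, ← cf_sub ((top_int (H_coe g).1).const_mul c) (top_int (H_coe _).1)]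
    refine cf_congr ?_ n
    rw [Submodule.coe_sub, Submodule.coe_smul]
    filter_upwards [Lp.coeFn_sub (c • (g : Lp ℂ ⊤ mu)) (T g : Lp ℂ ⊤ mu),
      Lp.coeFn_smul c (g : Lp ℂ ⊤ mu)] with t h1 h2
    rw [h1, Pi.sub_apply, h2, Pi.smul_apply, smul_eq_mul]
  have hup : ∀ c ∈ spectrum ℂ T, ‖c‖ ≤ ‖f‖ := by
    intro c hc
    by_contra hlt
    push Not at hlt
    apply hc
    rw [spectrum.mem_resolventSet_iff, ContinuousLinearMap.isUnit_iff_bijective]
    have hcpos : 0 < ‖c‖ := hρ0.trans_lt hlt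
    have hc0 : c ≠ 0 := norm_pos_iff.1 hcpos
    have hf : Acts fun t => c⁻¹ * f t :=
      hA.comp hb (R := ‖f‖ + 1) (by linarith) (Φ := fun z => c⁻¹ * z) (by fun_prop)
    have hfb : ∀ᵐ t ∂mu, ‖c⁻¹ * f t‖ ≤ ‖f‖ / ‖c‖ := by
      filter_upwards [hb] with t ht
      rw [norm_mul, norm_inv, div_eq_inv_mul]
      gcongr
    have hlt1 : ‖f‖ / ‖c‖ < 1 := (div_lt_one hcpos).2 hlt
    have hrw : ∀ g : Tc → ℂ, (fun t => (c - f t) * g t) =
        fun t => c * ((1 - c⁻¹ * f t) * g t) := by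
      intro g; ext t; field_simp
    constructor
    · refine (injective_iff_map_eq_zero _).2 fun g h0 => ?_
      have h1 := inj_of_lt hf.1 hfb hlt1 (H_coe g) fun n hn => by
        have := hcf c g n hn
        rw [h0, hrw, cf_const_mul, Submodule.coe_zero, cf_congr (Lp.coeFn_zero ℂ ⊤ mu)] at this
        have h2 : fourierCoeff (0 : Tc → ℂ) n = 0 := by simp [fourierCoeff]
        rw [h2] at this
        exact (mul_eq_zero.1 this.symm).resolve_left hc0
      exact Subtype.ext (Lp.ext (h1.trans (Lp.coeFn_zero ℂ ⊤ mu).symm))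
    · intro g
      obtain ⟨y, hy, hy1⟩ := hf.surj hfb hlt1 ((H_coe g).const_mul c⁻¹)
      refine ⟨hy.toH, Hinf_ext fun n hn => ?_⟩
      have e : fourierCoeff (fun t => (c - f t) * (hy.toH : Lp ℂ ⊤ mu) t) n =
          fourierCoeff (fun t => (c - f t) * y t) n := cf_congr (by
        filter_upwards [hy.toH_ae] with t ht
        rw [ht]) n
      rw [hcf c _ n hn, e, hrw, cf_const_mul, hy1 n hn, cf_const_mul, ← mul_assoc,
        mul_inv_cancel₀ hc0, one_mul]
  have hlow : ∀ b : ℝ, (∀ c ∈ spectrum ℂ T, ‖c‖ ≤ b) → ‖f‖ ≤ b := by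
    intro b hbub
    by_contra hlt
    push Not at hlt
    obtain ⟨b', h1, h2⟩ := exists_between hlt
    let K : Set ℂ := Metric.closedBall 0 ‖f‖ ∩ {c | b' ≤ ‖c‖}
    have hK : IsCompact K :=
      (isCompact_closedBall 0 _).inter_right (isClosed_le continuous_const continuous_norm)
    have hnull : ∀ᵐ t ∂mu, f t ∉ K := by
      refine hK.induction_on (p := fun S => ∀ᵐ t ∂mu, f t ∉ S) ?_ ?_ ?_ ?_
      · simp
      · intro S S' hST hS
        filter_upwards [hS] with t ht h using ht (hST h)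
      · intro S S' hS hS'
        filter_upwards [hS, hS'] with t h3 h4 h5 using h5.elim h3 h4
      · intro c hc
        have hres : c ∈ resolventSet ℂ T := by
          by_contra h
          exact absurd (hbub c h) (not_le.2 (h1.trans_le hc.2))
        rw [spectrum.mem_resolventSet_iff, ContinuousLinearMap.isUnit_iff_bijective] at hres
        obtain ⟨δ, hδ, hδ1⟩ := lower_of_surj (u := fun t => c - f t)
          ((memLp_top_const c).sub hφ) (fun y hy => by
            obtain ⟨g, hg⟩ := hres.2 hy.toH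
            exact ⟨_, H_coe g, fun n hn => by rw [← hcf c g n hn, hg, cf_congr hy.toH_ae]⟩)
        refine ⟨Metric.ball c δ, mem_nhdsWithin_of_mem_nhds (Metric.ball_mem_nhds c hδ), ?_⟩
        filter_upwards [hδ1] with t ht
        rw [Metric.mem_ball, dist_comm, dist_eq_norm]
        exact not_lt.2 ht
    have h3 : ∀ᵐ t ∂mu, ‖f t‖ ≤ b' := by
      filter_upwards [hnull, hb] with t h4 h5
      by_contra h6
      exact h4 ⟨mem_closedBall_zero_iff.2 h5, (not_le.1 h6).le⟩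
    linarith [norm_le_of_ae f h3]
  have hle : spectralRadius ℂ T ≤ ENNReal.ofReal ‖f‖ := by
    refine iSup₂_le fun c hc => ?_
    rw [← ENNReal.ofReal_coe_nnreal]
    exact ENNReal.ofReal_le_ofReal (hup c hc)
  refine le_antisymm hle ?_
  have hne : spectralRadius ℂ T ≠ ⊤ := ne_top_of_le_ne_top ENNReal.ofReal_ne_top hle
  refine ENNReal.ofReal_le_of_le_toReal (hlow _ fun c hc => ?_)
  have : (‖c‖₊ : ℝ≥0∞) ≤ spectralRadius ℂ T :=
    le_iSup₂ (f := fun k (_ : k ∈ spectrum ℂ T) => (‖k‖₊ : ℝ≥0∞)) c hc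
  simpa using ENNReal.toReal_mono hne this

end Pool.Agent.MP_0811ac_an
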